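import Pool.Agent.Lib.P2ec0h.GeomJ

/-!
# The alarm height and the armed height
-/

open MeasureTheory ProbabilityTheory Filter Topology Function
open scoped unitInterval ENNReal

namespace Pool.Agent.P2ec0h

open Pool.Agent.P2ec0f3 Pool.Agent.P2ec0g

variable {d : ℕ} {ℓ : Fin d → ℝ} {lam : ℝ} (J : Finset (Fin d × Bool)) (ω : Set (Edge d))

open Classical in
/-- The alarm height of a vertex with a closed edge. -/
noncomputable def tauJ (x : Vtx d) : ℤ :=
  if ∃ D ∈ J, edgeTo x D ∉ ω then hJ J x + 1 else hJ J x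

open Classical in
/-- The alarm height at time `n`: the height of the highest closed edge seen. -/
noncomputable def al (X : ℕ → Vtx d) : ℕ → ℤ
  | 0 => 1
  | n + 1 => if Full ω (X (n + 1)) then al X n
      else max (al X n) (tauJ J ω (X (n + 1)))

/-- The armed height at time `n`: the alarm height at the last step which is not forward. -/
noncomputable def ar (X : ℕ → Vtx d) : ℕ → ℤ
  | 0 => 0
  | n + 1 => if hJ J (X (n + 1)) = hJ J (X n) + 1 then ar X n else max (ar X n) (al J ω X n)

variable (X : ℕ → Vtx d)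

lemma hJ_le_tauJ (x : Vtx d) : hJ J x ≤ tauJ J ω x := by
  unfold tauJ; split_ifs <;> omega

lemma tauJ_le (x : Vtx d) : tauJ J ω x ≤ hJ J x + 1 := by
  unfold tauJ; split_ifs <;> omega

lemma pastA_al (n : ℕ) : PastA n (fun X => al J ω X n) := by
  classical
  intro X Y h
  simp only
  induction n with
  | zero => rfl
  | succ n ih =>
    have h1 := ih fun m hm => h m (by omega)
    have h2 := h (n + 1) le_rfl
    unfold al
    rw [h1, h2]

lemma pastA_ar (n : ℕ) : PastA n (fun X => ar J ω X n) := by
  intro X Y h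
  simp only
  induction n with
  | zero => rfl
  | succ n ih =>
    have h1 := ih fun m hm => h m (by omega)
    have h2 := h (n + 1) le_rfl
    have h3 := h n (by omega)
    have h4 : al J ω X n = al J ω Y n := pastA_al J ω n X Y fun m hm => h m (by omega)
    unfold ar
    rw [h1, h2, h3, h4]

lemma al_le_succ (n : ℕ) : al J ω X n ≤ al J ω X (n + 1) := by
  classical
  conv_rhs => unfold al
  split_ifs
  · exact le_rfl
  · exact le_max_left _ _

lemma al_mono {m n : ℕ} (h : m ≤ n) : al J ω X m ≤ al J ω X n :=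
  monotone_nat_of_le_succ (fun n => al_le_succ J ω X n) h

lemma one_le_al (n : ℕ) : 1 ≤ al J ω X n := al_mono J ω X (Nat.zero_le n)

lemma ar_le_succ (n : ℕ) : ar J ω X n ≤ ar J ω X (n + 1) := by
  conv_rhs => unfold ar
  split_ifs
  · exact le_rfl
  · exact le_max_left _ _

lemma ar_mono {m n : ℕ} (h : m ≤ n) : ar J ω X m ≤ ar J ω X n :=
  monotone_nat_of_le_succ (fun n => ar_le_succ J ω X n) h

lemma zero_le_ar (n : ℕ) : 0 ≤ ar J ω X n := ar_mono J ω X (Nat.zero_le n)

lemma ar_le_al (n : ℕ) : ar J ω X n ≤ al J ω X n := by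
  induction n with
  | zero =>
    change (0 : ℤ) ≤ 1
    omega
  | succ n ih =>
    have h := al_le_succ J ω X n
    unfold ar
    split_ifs
    · omega
    · exact max_le (by omega) h

lemma tauJ_le_al {X : ℕ → Vtx d} (h0 : X 0 = 0) {n : ℕ} (h : ¬ Full ω (X n)) :
    tauJ J ω (X n) ≤ al J ω X n := by
  classical
  cases n with
  | zero =>
    have := tauJ_le J ω (X 0)
    rw [h0, hJ_zero] at this
    rw [h0]
    exact this
  | succ n =>
    unfold al
    rw [if_neg h]
    exact le_max_right _ _

lemma abs_hJ_le {n : ℕ} {x : Vtx d} (hx : x ∈ box d n) : |hJ J x| ≤ J.card * n := by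
  unfold hJ
  refine (Finset.abs_sum_le_sum_abs _ _).trans ?_
  refine (Finset.sum_le_sum fun D _ => abs_ht_le D hx).trans (le_of_eq ?_)
  rw [Finset.sum_const, nsmul_eq_mul]

lemma al_le {X : ℕ → Vtx d} (hX : ∀ m, X m ∈ box d m) (n : ℕ) :
    al J ω X n ≤ J.card * n + 1 := by
  classical
  induction n with
  | zero => simp [al]
  | succ n ih =>
    have h3 : (J.card * n : ℤ) ≤ J.card * ((n + 1 : ℕ) : ℤ) :=
      mul_le_mul_of_nonneg_left (by push_cast; omega) (by positivity)
    unfold al
    split_ifs
    · omega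
    · refine max_le (by omega) ?_
      have h1 := tauJ_le J ω (X (n + 1))
      have h2 := abs_hJ_le J (hX (n + 1))
      rw [abs_le] at h2
      have := h2.2
      omega

/-- The height of the upper endpoint of an edge. -/
def topJ (x : Vtx d) (D : Fin d × Bool) : ℤ := max (hJ J x) (hJ J (nbr x D))

lemma edgeTo_eq {x y : Vtx d} {D D' : Fin d × Bool} (h : edgeTo x D = edgeTo y D') :
    (y = x ∧ nbr y D' = nbr x D) ∨ (y = nbr x D ∧ nbr y D' = x) := by
  obtain ⟨i, b⟩ := D
  obtain ⟨j, c⟩ := D'
  cases b <;> cases c <;> simp only [edgeTo, nbr, if_true, Bool.false_eq_true, if_false,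
    Prod.mk.injEq] at h ⊢
  · obtain ⟨h1, h2⟩ := h
    subst h2
    have : x = y := sub_left_injective h1
    left
    rw [this]
    exact ⟨rfl, rfl⟩
  · obtain ⟨h1, h2⟩ := h
    subst h2
    right
    rw [← h1, sub_add_cancel]
    exact ⟨rfl, rfl⟩
  · obtain ⟨h1, h2⟩ := h
    subst h2
    right
    rw [h1, sub_add_cancel]
    exact ⟨rfl, rfl⟩
  · obtain ⟨h1, h2⟩ := h
    subst h2
    left
    rw [h1]
    exact ⟨rfl, rfl⟩

lemma topJ_eq {x y : Vtx d} {D D' : Fin d × Bool} (h : edgeTo x D = edgeTo y D') :
    topJ J x D = topJ J y D' := by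
  unfold topJ
  rcases edgeTo_eq h with ⟨h1, h2⟩ | ⟨h1, h2⟩
  · rw [h2, h1]
  · rw [h2, h1, max_comm]

variable {J} in
lemma topJ_le_tauJ {L δ : ℝ} (hG : GapJ ℓ J L δ) {x : Vtx d} {D : Fin d × Bool}
    (h : edgeTo x D ∉ ω) : topJ J x D ≤ tauJ J ω x := by
  unfold topJ
  rw [hJ_nbr]
  by_cases hD : D ∈ J
  · rw [dJ_mem hG hD]
    unfold tauJ
    rw [if_pos ⟨D, hD, h⟩]
    omega
  · have : dJ J D ≤ 0 := by rcases dJ_notMem hD with h1 | h1 <;> omega
    have h2 := hJ_le_tauJ J ω x
    omega

variable {J} in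
lemma exists_topJ {L δ : ℝ} (hG : GapJ ℓ J L δ) {x : Vtx d} (h : ¬ Full ω x) :
    ∃ D, edgeTo x D ∉ ω ∧ tauJ J ω x ≤ topJ J x D := by
  by_cases hF : ∃ D ∈ J, edgeTo x D ∉ ω
  · obtain ⟨D, hD, hc⟩ := hF
    refine ⟨D, hc, ?_⟩
    unfold tauJ topJ
    rw [if_pos ⟨D, hD, hc⟩, hJ_nbr, dJ_mem hG hD]
    exact le_max_right _ _
  · unfold Full at h
    push Not at h
    obtain ⟨D, hD⟩ := h
    refine ⟨D, hD, ?_⟩
    unfold tauJ topJ
    rw [if_neg hF]
    exact le_max_left _ _

variable {J} in
/-- When the alarm height changes, a closed edge is seen for the first time. -/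
lemma exists_freshJ {L δ : ℝ} (hG : GapJ ℓ J L δ) {X : ℕ → Vtx d} (h0 : X 0 = 0) {n : ℕ}
    (h : al J ω X n < al J ω X (n + 1)) :
    ∃ D, edgeTo (X (n + 1)) D ∉ ω ∧ ∀ m < n + 1, Away (edgeTo (X (n + 1)) D) (X m) := by
  classical
  have h3 : al J ω X (n + 1) = if Full ω (X (n + 1)) then al J ω X n
      else max (al J ω X n) (tauJ J ω (X (n + 1))) := by
    conv_lhs => unfold al
  have h1 : ¬ Full ω (X (n + 1)) := by
    intro hf
    rw [h3, if_pos hf] at h
    exact absurd h (lt_irrefl _)
  have h2 : al J ω X n < tauJ J ω (X (n + 1)) := by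
    rw [h3, if_neg h1] at h
    rcases lt_max_iff.1 h with h | h
    · exact absurd h (lt_irrefl _)
    · exact h
  obtain ⟨D, hD, hD2⟩ := exists_topJ ω hG h1
  refine ⟨D, hD, fun m hm D' hD' => ?_⟩
  have h4 : edgeTo (X m) D' ∉ ω := by rw [hD']; exact hD
  have h5 : ¬ Full ω (X m) := fun hf => h4 (hf D')
  have h6 := tauJ_le_al J ω h0 h5
  have h7 := topJ_le_tauJ ω hG h4
  have h8 := topJ_eq J hD'
  have h9 := al_mono J ω X (show m ≤ n by omega)
  omega

/-- If the alarm height is not armed, the walk is at most one below it. -/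
lemma al_le_ar_or {X : ℕ → Vtx d} (h0 : X 0 = 0) (n : ℕ) :
    al J ω X n ≤ ar J ω X n ∨ al J ω X n ≤ hJ J (X n) + 1 := by
  classical
  induction n with
  | zero =>
    right
    rw [h0, hJ_zero]
    change (1 : ℤ) ≤ 0 + 1
    omega
  | succ n ih =>
    by_cases hf : Full ω (X (n + 1))
    · have h1 : al J ω X (n + 1) = al J ω X n := by
        conv_lhs => unfold al
        rw [if_pos hf]
      rw [h1]
      unfold ar
      split_ifs with hs
      · rcases ih with h | h
        · left; exact h
        · right; omega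
      · left; exact le_max_right _ _
    · have h1 : al J ω X (n + 1) = max (al J ω X n) (tauJ J ω (X (n + 1))) := by
        conv_lhs => unfold al
        rw [if_neg hf]
      have h2 := tauJ_le J ω (X (n + 1))
      rcases le_total (al J ω X n) (tauJ J ω (X (n + 1))) with h3 | h3
      · right
        rw [h1, max_eq_right h3]
        exact h2
      · rw [h1, max_eq_left h3]
        unfold ar
        split_ifs with hs
        · rcases ih with h | h
          · left; exact h
          · right; omega
        · left; exact le_max_right _ _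

lemma nbr_injective (x : Vtx d) {D D' : Fin d × Bool} (h : nbr x D = nbr x D') : D = D' := by
  obtain ⟨i, b⟩ := D
  obtain ⟨j, c⟩ := D'
  have hb : ∀ i j : Fin d, (basisVec i : Vtx d) = basisVec j → i = j := by
    intro i j h
    by_contra hne
    have := congrFun h i
    simp [basisVec, Pi.single_eq_of_ne hne] at this
  have hn : ∀ i j : Fin d, (basisVec i : Vtx d) ≠ - basisVec j := by
    intro i j h
    have h1 := congrFun h i
    by_cases hij : i = j
    · subst hij
      simp [basisVec] at h1
    · simp [basisVec, Pi.single_eq_of_ne hij] at h1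
  cases b <;> cases c <;> simp only [nbr, if_true, Bool.false_eq_true, if_false] at h
  · have := hb i j (by
      have := sub_right_injective h
      exact this)
    rw [this]
  · exfalso
    refine hn j i ?_
    have : x + basisVec j = x + - basisVec i := by rw [← h, sub_eq_add_neg]
    exact add_left_cancel this
  · exfalso
    refine hn i j ?_
    have : x + basisVec i = x + - basisVec j := by rw [h, sub_eq_add_neg]
    exact add_left_cancel this
  · have := hb i j (add_left_cancel h)
    rw [this]

variable {J} in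
/-- A closed edge which is seen again has been armed. -/
lemma le_ar_of_seen {L δ : ℝ} (hG : GapJ ℓ J L δ) {X : ℕ → Vtx d} (h0 : X 0 = 0)
    (hX : ∀ n, X (n + 1) = X n ∨ ∃ D, edgeTo (X n) D ∈ ω ∧ X (n + 1) = nbr (X n) D)
    {m n : ℕ} (hmn : m < n) {D D' : Fin d × Bool} (hc : edgeTo (X n) D ∉ ω)
    (hD : edgeTo (X m) D' = edgeTo (X n) D) : topJ J (X n) D ≤ ar J ω X n := by
  classical
  have h4 : edgeTo (X m) D' ∉ ω := by rw [hD]; exact hc
  have h5 : ¬ Full ω (X m) := fun hf => h4 (hf D')
  have h6 := tauJ_le_al J ω h0 h5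
  have h7 := topJ_le_tauJ ω hG h4
  have h8 := topJ_eq J hD
  by_cases hs : ∃ k, m ≤ k ∧ k < n ∧ hJ J (X (k + 1)) ≠ hJ J (X k) + 1
  · obtain ⟨k, hk1, hk2, hk3⟩ := hs
    have h9 : al J ω X k ≤ ar J ω X (k + 1) := by
      conv_rhs => unfold ar
      rw [if_neg hk3]
      exact le_max_right _ _
    have h10 := ar_mono J ω X (show k + 1 ≤ n by omega)
    have h11 := al_mono J ω X hk1
    omega
  · exfalso
    push Not at hs
    have h9 : ∀ k, m + k ≤ n → hJ J (X (m + k)) = hJ J (X m) + k := by
      intro k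
      induction k with
      | zero => intro _; simp
      | succ k ih =>
        intro hk
        have h1 := ih (by omega)
        have h2 := hs (m + k) (by omega) (by omega)
        rw [show m + (k + 1) = m + k + 1 by ring, h2, h1]
        push_cast
        ring
    have h10 := h9 (n - m) (by omega)
    rw [show m + (n - m) = n by omega] at h10
    have h11 : ((n - m : ℕ) : ℤ) = n - m := by omega
    rw [h11] at h10
    rcases edgeTo_eq hD with ⟨h12, -⟩ | ⟨h12, -⟩
    · rw [h12] at h10
      omega
    · have h13 : hJ J (X n) ≤ hJ J (X m) + 1 := by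
        rw [h12, hJ_nbr]
        have := dJ_le_one hG D'
        omega
      obtain rfl : n = m + 1 := by omega
      rcases hX m with h14 | ⟨D'', h15, h16⟩
      · rw [h14] at h10
        push_cast at h10
        omega
      · rw [h12] at h16
        have h17 := nbr_injective (X m) h16
        rw [h17] at h4
        exact h4 h15

end Pool.Agent.P2ec0h
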