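import Pool.Agent.Lib.P2ec0h.FinJ

/-!
# The comparison for every direction
-/

open MeasureTheory ProbabilityTheory Filter Topology Function
open scoped unitInterval ENNReal

namespace Pool.Agent.P2ec0h

open Pool.Agent.P2ec0f3 Pool.Agent.P2ec0g

variable {d : ℕ} {ℓ : Fin d → ℝ} {lam : ℝ} {J : Finset (Fin d × Bool)}

/-- The comparison of the speeds for a strong bias, in terms of the set of maximal directions. -/
theorem strong_all (hd : 2 ≤ d) {L δ : ℝ} (hG : GapJ ℓ J L δ)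
    (hlam : 30000 * (d : ℝ) ^ 6 * (192 * (d : ℝ) ^ 4) ^ (2 * d) ≤ Real.exp (lam * δ))
    {p : I} (hp : criticalParam d < p) {v v₁ : Fin d → ℝ} (hv : IsVelocity ℓ lam p v)
    (hv₁ : IsVelocity ℓ lam 1 v₁) :
    ∑ j, v₁ j * ℓ j < L ∧
    ∑ j, v j * ℓ j + (L - ∑ j, v₁ j * ℓ j) / (12 * (d : ℝ) ^ 2) * (1 - (p : ℝ)) ≤
      ∑ j, v₁ j * ℓ j := by
  have hD2 : (2 : ℝ) ≤ d := by exact_mod_cast hd
  have hδ := hG.pos
  have hD4 : (16 : ℝ) ≤ (d : ℝ) ^ 4 := by
    calc (16 : ℝ) = 2 ^ 4 := by norm_num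
      _ ≤ (d : ℝ) ^ 4 := pow_le_pow_left₀ (by norm_num) hD2 4
  have hD6 : (64 : ℝ) ≤ (d : ℝ) ^ 6 := by
    calc (64 : ℝ) = 2 ^ 6 := by norm_num
      _ ≤ (d : ℝ) ^ 6 := pow_le_pow_left₀ (by norm_num) hD2 6
  set K0 : ℝ := (192 * (d : ℝ) ^ 4) ^ (2 * d) with hK0
  have hbase : 1 ≤ 192 * (d : ℝ) ^ 4 := by linarith
  have hK1 : 1 ≤ K0 := one_le_pow₀ hbase
  have hlam1 : 1 ≤ lam * δ := by
    have h1 : Real.exp 1 ≤ Real.exp (lam * δ) := by
      have h2 := Real.exp_one_lt_d9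
      have h3 : 30000 * (d : ℝ) ^ 6 * 1 ≤ 30000 * (d : ℝ) ^ 6 * K0 :=
        mul_le_mul_of_nonneg_left hK1 (by positivity)
      linarith
    exact Real.exp_le_exp.1 h1
  have hlam0 : 0 < lam := by
    by_contra h
    push Not at h
    have := mul_nonpos_of_nonpos_of_nonneg h hδ.le
    linarith
  set ε : ℝ := 1 / (30000 * (d : ℝ) ^ 6 * K0) with hεdef
  have hε : Real.exp (-(lam * δ)) ≤ ε := by
    rw [Real.exp_neg, hεdef, one_div]
    exact inv_anti₀ (by positivity) hlam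
  set r₀ : ℝ := 1 / (192 * (d : ℝ) ^ 4) with hr0def
  have hr1 : 0 < r₀ := by positivity
  have hr2 : r₀ ≤ 1 := by
    rw [hr0def]
    exact (div_le_one (by positivity)).2 hbase
  have hρ : 30000 * (d : ℝ) ^ 6 * ε = r₀ ^ (2 * d) := by
    rw [hεdef, hr0def, div_pow, one_pow, ← hK0]
    have : (d : ℝ) ^ 6 ≠ 0 := by positivity
    have hK : K0 ≠ 0 := by positivity
    field_simp
  have hρ1 : r₀ ^ (2 * d) ≤ 1 := pow_le_one₀ hr1.le hr2
  have hfs : ∑ j, v₁ j * ℓ j = fs ℓ lam := speed_full (lt_of_lt_of_le hp p.2.2) hv₁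
  have hp0 : 0 ≤ 1 - (p : ℝ) := by linarith [p.2.2]
  have hR := RJ_pos (lam := lam) hG
  have hRle := RJ_le (lam := lam) hG hlam1 hε
  have hW := WJ_nonneg (ℓ := ℓ) (lam := lam) (J := J) (L := L)
  have hfs2 : L - fs ℓ lam = RJ ℓ lam J L / (J.card + WJ ℓ lam J L) := by
    rw [fs_eq hG]
    ring
  have hc1 : (1 : ℝ) ≤ J.card := by exact_mod_cast Finset.card_pos.2 hG.ne
  rw [hfs]
  have hpos : 0 < L - fs ℓ lam := by
    rw [hfs2]
    exact div_pos hR (by linarith)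
  refine ⟨by linarith, ?_⟩
  by_cases hm : 2 ≤ J.card
  · have hm2 : (2 : ℝ) ≤ J.card := by exact_mod_cast hm
    have hle : (L - fs ℓ lam) / (12 * (d : ℝ) ^ 2) ≤ RJ ℓ lam J L / (24 * (d : ℝ) ^ 2) := by
      have h1 : L - fs ℓ lam ≤ RJ ℓ lam J L / 2 := by
        rw [hfs2]
        exact div_le_div_of_nonneg_left hR.le (by norm_num) (by linarith)
      have h2 := div_le_div_of_nonneg_right h1 (by positivity : 0 ≤ 12 * (d : ℝ) ^ 2)
      refine h2.trans (le_of_eq ?_)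
      field_simp
      norm_num
    have h3 := mul_le_mul_of_nonneg_right hle hp0
    rcases le_total r₀ (1 - (p : ℝ)) with h4 | h4
    · have := concl1 hd hG hm hlam0 hlam1 hε hr1 hr2 hρ.le hp hv h4
      linarith
    · have h5 : 192 * (d : ℝ) ^ 4 * (1 - (p : ℝ)) ≤ 1 := by
        have := mul_le_mul_of_nonneg_left h4 (by positivity : 0 ≤ 192 * (d : ℝ) ^ 4)
        have h6 : 192 * (d : ℝ) ^ 4 * r₀ = 1 := by
          rw [hr0def]
          field_simp
        linarith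
      have := concl2 hd hG hm hlam0 hlam1 hε (hρ.le.trans hρ1) hp hv h5
      linarith
  · have hcard : J.card = 1 := by
      have := Finset.card_pos.2 hG.ne
      omega
    obtain ⟨F, hF⟩ := Finset.card_eq_one.1 hcard
    have hFL : gain ℓ F = L := hG.eq F (by rw [hF]; exact Finset.mem_singleton_self F)
    have hGap : Gap ℓ F δ := by
      refine ⟨hδ, fun D hD => ?_, ?_⟩
      · rw [hFL]
        refine hG.gap D ?_
        rw [hF]
        simpa using hD
      · rw [hFL]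
        exact hG.le
    have hlam' : 30 * (d : ℝ) ^ 2 ≤ Real.exp (lam * δ) := by
      refine le_trans ?_ hlam
      have h2 : (d : ℝ) ^ 2 ≤ (d : ℝ) ^ 6 := pow_le_pow_right₀ (by linarith) (by norm_num)
      have h3 : 30000 * (d : ℝ) ^ 6 * 1 ≤ 30000 * (d : ℝ) ^ 6 * K0 :=
        mul_le_mul_of_nonneg_left hK1 (by positivity)
      linarith
    have h1 := strong_speed hd hGap hlam' hp hv hv₁
    rw [hfs] at h1
    have h2 : (L - fs ℓ lam) / (12 * (d : ℝ) ^ 2) ≤ δ / 8 := by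
      have h3 : L - fs ℓ lam ≤ RJ ℓ lam J L := by
        rw [hfs2]
        exact div_le_self hR.le (by linarith)
      have h4 : 2 * d * ε * δ ≤ δ := by
        have h5 : (d : ℝ) * ε ≤ (d : ℝ) ^ 6 * ε := by
          refine mul_le_mul_of_nonneg_right ?_ (by positivity)
          calc (d : ℝ) = (d : ℝ) ^ 1 := (pow_one _).symm
            _ ≤ (d : ℝ) ^ 6 := pow_le_pow_right₀ (by linarith) (by norm_num)
        have h6 : (d : ℝ) * ε * (2 * δ) ≤ 1 / 30000 * (2 * δ) :=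
          mul_le_mul_of_nonneg_right (by linarith) (by linarith)
        linarith
      rw [div_le_iff₀ (by positivity)]
      have h7 : δ / 8 * (12 * 4) ≤ δ / 8 * (12 * (d : ℝ) ^ 2) := by
        refine mul_le_mul_of_nonneg_left ?_ (by positivity)
        nlinarith
      linarith
    have h3 := mul_le_mul_of_nonneg_right h2 hp0
    linarith

end Pool.Agent.P2ec0h
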