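import Pool.Agent.Lib.P2ec0h.GeomJ
import Pool.Agent.Lib.P2ec0g.Quen

/-!
# The drift of the height at an unblocked vertex
-/

open MeasureTheory ProbabilityTheory Filter Topology Function
open scoped unitInterval ENNReal

namespace Pool.Agent.P2ec0h

open Pool.Agent.P2ec0f3 Pool.Agent.P2ec0g

variable {d : ℕ} (ℓ : Fin d → ℝ) (lam : ℝ) (J : Finset (Fin d × Bool)) (L : ℝ)

/-- The relative weight of a direction. -/
noncomputable def wJ (D : Fin d × Bool) : ℝ := Real.exp (-(lam * (L - gain ℓ D)))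

/-- The relative loss of a direction. -/
noncomputable def rhoJ (D : Fin d × Bool) : ℝ := (L - gain ℓ D) * wJ ℓ lam L D

/-- The total relative weight of the other directions. -/
noncomputable def WJ : ℝ := ∑ D ∈ Jᶜ, wJ ℓ lam L D

/-- The total relative loss. -/
noncomputable def RJ : ℝ := ∑ D ∈ Jᶜ, rhoJ ℓ lam L D

variable {ℓ lam J L}

lemma wJ_pos (D : Fin d × Bool) : 0 < wJ ℓ lam L D := Real.exp_pos _

lemma rhoJ_nonneg {δ : ℝ} (hG : GapJ ℓ J L δ) (D : Fin d × Bool) : 0 ≤ rhoJ ℓ lam L D :=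
  mul_nonneg (by linarith [gain_le_L hG D]) (wJ_pos D).le

lemma WJ_nonneg : 0 ≤ WJ ℓ lam J L := Finset.sum_nonneg fun _ _ => (wJ_pos _).le

lemma card_le_two_mul (K : Finset (Fin d × Bool)) : (K.card : ℝ) ≤ 2 * d := by
  have h4 : K.card ≤ (Finset.univ : Finset (Fin d × Bool)).card :=
    Finset.card_le_card (Finset.subset_univ _)
  have h5 : (Finset.univ : Finset (Fin d × Bool)).card = d * 2 := by
    simp [Finset.card_univ]
  have : (K.card : ℝ) ≤ ((d * 2 : ℕ) : ℝ) := by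
    rw [← h5]; exact_mod_cast h4
  push_cast at this
  linarith

lemma WJ_le {δ ε : ℝ} (hG : GapJ ℓ J L δ) (hlam : 0 < lam)
    (hε : Real.exp (-(lam * δ)) ≤ ε) : WJ ℓ lam J L ≤ 2 * d * ε := by
  unfold WJ
  have h1 : ∀ D ∈ Jᶜ, wJ ℓ lam L D ≤ ε := by
    intro D hD
    have h2 := hG.gap D (Finset.mem_compl.1 hD)
    unfold wJ
    refine (Real.exp_le_exp.2 ?_).trans hε
    have := mul_le_mul_of_nonneg_left (show δ ≤ L - gain ℓ D by linarith) hlam.le
    linarith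
  refine (Finset.sum_le_sum h1).trans ?_
  rw [Finset.sum_const, nsmul_eq_mul]
  exact mul_le_mul_of_nonneg_right (card_le_two_mul _) ((Real.exp_pos _).le.trans hε)

lemma RJ_le {δ ε : ℝ} (hG : GapJ ℓ J L δ) (h1 : 1 ≤ lam * δ)
    (hε : Real.exp (-(lam * δ)) ≤ ε) : RJ ℓ lam J L ≤ 2 * d * ε * δ := by
  unfold RJ
  have h2 : ∀ D ∈ Jᶜ, rhoJ ℓ lam L D ≤ δ * ε := by
    intro D hD
    have h3 := hG.gap D (Finset.mem_compl.1 hD)
    have h4 := mul_exp_le (lam := lam) hG.pos (x := L - gain ℓ D) (by linarith) h1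
    exact h4.trans (mul_le_mul_of_nonneg_left hε hG.pos.le)
  refine (Finset.sum_le_sum h2).trans ?_
  rw [Finset.sum_const, nsmul_eq_mul]
  have h5 : 0 ≤ δ * ε := mul_nonneg hG.pos.le ((Real.exp_pos _).le.trans hε)
  have := mul_le_mul_of_nonneg_right (card_le_two_mul Jᶜ) h5
  linarith

/-- The total relative loss is positive. -/
lemma RJ_pos {δ : ℝ} (hG : GapJ ℓ J L δ) : 0 < RJ ℓ lam J L := by
  obtain ⟨F, hF⟩ := hG.ne
  have h1 := opp_notMem hG hF
  have h2 : (F.1, !F.2) ∈ Jᶜ := Finset.mem_compl.2 h1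
  have h3 : rhoJ ℓ lam L (F.1, !F.2) ≤ RJ ℓ lam J L :=
    Finset.single_le_sum (f := fun D => rhoJ ℓ lam L D) (fun D _ => rhoJ_nonneg hG D) h2
  have h4 : 0 < rhoJ ℓ lam L (F.1, !F.2) := by
    refine mul_pos ?_ (wJ_pos _)
    have := hG.gap _ h1
    linarith [hG.pos]
  linarith

variable {ω : Set (Edge d)} {x : Vtx d}

lemma weight_eq_w (D : Fin d × Bool) : weight ℓ lam ω x D =
    Real.exp (lam * L) * (wJ ℓ lam L D * (1 - cl (edgeTo x D) ω)) := by
  classical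
  unfold cl
  by_cases h : edgeTo x D ∈ ω
  · rw [weight_of_mem ℓ lam h, if_pos h, sub_zero, mul_one]
    unfold wJ
    rw [← Real.exp_add]
    congr 1
    ring
  · rw [weight_of_notMem ℓ lam h, if_neg h, sub_self, mul_zero, mul_zero]

lemma one_sub_cl_nonneg (b : Edge d) (ω : Set (Edge d)) : 0 ≤ 1 - cl b ω := by
  linarith [cl_le_one b ω]

lemma open_ge_one (h : ¬ Blk J ω x) : 1 ≤ ∑ D ∈ J, (1 - cl (edgeTo x D) ω) := by
  classical
  unfold Blk at h
  push Not at h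
  obtain ⟨D, hD, ho⟩ := h
  have h1 : 1 - cl (edgeTo x D) ω = 1 := by
    unfold cl
    rw [if_pos ho, sub_zero]
  exact h1.symm.le.trans (Finset.single_le_sum (f := fun D => 1 - cl (edgeTo x D) ω)
    (fun D _ => one_sub_cl_nonneg _ _) hD)

/-- The drift of the height at an unblocked vertex. -/
lemma drift_height_eq {δ : ℝ} (hG : GapJ ℓ J L δ) (h : ¬ Blk J ω x) :
    drift ℓ lam ω (height ℓ) x = L - (∑ D ∈ Jᶜ, rhoJ ℓ lam L D * (1 - cl (edgeTo x D) ω)) /
      (∑ D ∈ J, (1 - cl (edgeTo x D) ω) +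
        ∑ D ∈ Jᶜ, wJ ℓ lam L D * (1 - cl (edgeTo x D) ω)) := by
  classical
  set S := ∑ D ∈ J, (1 - cl (edgeTo x D) ω) +
        ∑ D ∈ Jᶜ, wJ ℓ lam L D * (1 - cl (edgeTo x D) ω) with hS
  have hwJ1 : ∀ D ∈ J, wJ ℓ lam L D = 1 := by
    intro D hD
    unfold wJ
    rw [hG.eq D hD]
    simp
  have hrJ0 : ∀ D ∈ J, rhoJ ℓ lam L D = 0 := by
    intro D hD
    unfold rhoJ
    rw [hG.eq D hD]
    simp
  have hS1 : ∑ D, wJ ℓ lam L D * (1 - cl (edgeTo x D) ω) = S := by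
    rw [← Finset.sum_add_sum_compl J, hS]
    congr 1
    refine Finset.sum_congr rfl fun D hD => ?_
    rw [hwJ1 D hD, one_mul]
  have hS0 : 0 < S := by
    have h1 := open_ge_one h
    have h2 : 0 ≤ ∑ D ∈ Jᶜ, wJ ℓ lam L D * (1 - cl (edgeTo x D) ω) :=
      Finset.sum_nonneg fun D _ => mul_nonneg (wJ_pos D).le (one_sub_cl_nonneg _ _)
    linarith
  have htot : total ℓ lam ω x = Real.exp (lam * L) * S := by
    unfold total
    rw [← hS1, Finset.mul_sum]
    exact Finset.sum_congr rfl fun D _ => weight_eq_w D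
  have hE := (Real.exp_pos (lam * L)).ne'
  have hsp : ∀ D, sp ℓ lam ω x D = wJ ℓ lam L D * (1 - cl (edgeTo x D) ω) / S := by
    intro D
    unfold sp
    rw [htot, weight_eq_w (L := L) D, mul_div_mul_left _ _ hE]
  have h1 := sum_sp ℓ lam ω x (total_ne_zero' (ℓ := ℓ) (lam := lam) h)
  have h2 : drift ℓ lam ω (height ℓ) x = L - ∑ D, sp ℓ lam ω x D * (L - gain ℓ D) := by
    rw [drift_height]
    have h3 : ∑ D, sp ℓ lam ω x D * (L - gain ℓ D) =
        (∑ D, sp ℓ lam ω x D) * L - ∑ D, sp ℓ lam ω x D * gain ℓ D := by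
      rw [Finset.sum_mul, ← Finset.sum_sub_distrib]
      exact Finset.sum_congr rfl fun D _ => by ring
    rw [h3, h1]
    ring
  rw [h2]
  congr 1
  have h3 : ∀ D ∈ (Finset.univ : Finset (Fin d × Bool)), sp ℓ lam ω x D * (L - gain ℓ D) =
      rhoJ ℓ lam L D * (1 - cl (edgeTo x D) ω) / S := by
    intro D _
    rw [hsp D]
    unfold rhoJ
    ring
  rw [Finset.sum_congr rfl h3, ← Finset.sum_div, ← Finset.sum_add_sum_compl J]
  congr 1
  rw [Finset.sum_eq_zero (s := J), zero_add]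
  intro D hD
  rw [hrJ0 D hD, zero_mul]

lemma fs_eq {δ : ℝ} (hG : GapJ ℓ J L δ) :
    fs ℓ lam = L - RJ ℓ lam J L / (J.card + WJ ℓ lam J L) := by
  classical
  have hB : ¬ Blk J (Set.univ : Set (Edge d)) (0 : Vtx d) := by
    intro h
    obtain ⟨F, hF⟩ := hG.ne
    exact h F hF (Set.mem_univ _)
  have hF : Full (Set.univ : Set (Edge d)) (0 : Vtx d) := fun D => Set.mem_univ _
  have h1 := drift_height_full ℓ lam (Set.univ : Set (Edge d)) hF
  have h2 := drift_height_eq (lam := lam) hG hB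
  have h3 : ∀ b : Edge d, cl b (Set.univ : Set (Edge d)) = 0 := by
    intro b
    unfold cl
    rw [if_pos (Set.mem_univ b)]
  rw [h1] at h2
  rw [h2]
  simp only [h3, sub_zero, mul_one, Finset.sum_const, nsmul_eq_mul]
  rfl

/-- The comparison of the drift of the height at an unblocked vertex with the full drift. -/
lemma drift_unblocked {δ : ℝ} (hG : GapJ ℓ J L δ) (hm : 2 ≤ J.card) {ω : Set (Edge d)}
    {x : Vtx d} (h : ¬ Blk J ω x) :
    drift ℓ lam ω (height ℓ) x ≤ fs ℓ lam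
      - RJ ℓ lam J L / ((J.card + WJ ℓ lam J L) * (J.card - 1 + WJ ℓ lam J L)) *
          ∑ D ∈ J, cl (edgeTo x D) ω
      + 1 / (J.card + WJ ℓ lam J L) * ∑ D ∈ Jᶜ, rhoJ ℓ lam L D * cl (edgeTo x D) ω
      + RJ ℓ lam J L * ∑ D ∈ J, ∑ D' ∈ Jᶜ, cl (edgeTo x D) ω * cl (edgeTo x D') ω := by
  classical
  have hm2 : (2 : ℝ) ≤ J.card := by exact_mod_cast hm
  have hR := RJ_pos (lam := lam) hG
  have hW := WJ_nonneg (ℓ := ℓ) (lam := lam) (J := J) (L := L)
  have hopen := open_ge_one h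
  have hdr := drift_height_eq (lam := lam) hG h
  rw [hdr, fs_eq hG]
  have e1 : ∑ D ∈ J, (1 - cl (edgeTo x D) ω) = J.card - ∑ D ∈ J, cl (edgeTo x D) ω := by
    rw [Finset.sum_sub_distrib, Finset.sum_const, nsmul_eq_mul, mul_one]
  have e2 : ∑ D ∈ Jᶜ, rhoJ ℓ lam L D * (1 - cl (edgeTo x D) ω) =
      RJ ℓ lam J L - ∑ D ∈ Jᶜ, rhoJ ℓ lam L D * cl (edgeTo x D) ω := by
    unfold RJ
    rw [← Finset.sum_sub_distrib]
    exact Finset.sum_congr rfl fun D _ => by ring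
  have e3 : ∑ D ∈ Jᶜ, wJ ℓ lam L D * (1 - cl (edgeTo x D) ω) ≤ WJ ℓ lam J L := by
    unfold WJ
    exact Finset.sum_le_sum fun D _ => mul_le_of_le_one_right (wJ_pos D).le
      (by linarith [cl_nonneg (edgeTo x D) ω])
  have e4 : 0 ≤ ∑ D ∈ Jᶜ, wJ ℓ lam L D * (1 - cl (edgeTo x D) ω) :=
    Finset.sum_nonneg fun D _ => mul_nonneg (wJ_pos D).le (one_sub_cl_nonneg _ _)
  have e5 : 0 ≤ ∑ D ∈ Jᶜ, rhoJ ℓ lam L D * (1 - cl (edgeTo x D) ω) :=
    Finset.sum_nonneg fun D _ => mul_nonneg (rhoJ_nonneg hG D) (one_sub_cl_nonneg _ _)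
  have e6 : 0 ≤ ∑ D ∈ Jᶜ, rhoJ ℓ lam L D * cl (edgeTo x D) ω :=
    Finset.sum_nonneg fun D _ => mul_nonneg (rhoJ_nonneg hG D) (cl_nonneg _ _)
  have e7 : ∑ D ∈ J, ∑ D' ∈ Jᶜ, cl (edgeTo x D) ω * cl (edgeTo x D') ω =
      (∑ D ∈ J, cl (edgeTo x D) ω) * ∑ D' ∈ Jᶜ, cl (edgeTo x D') ω := by
    rw [Finset.sum_mul_sum]
  rw [e7]
  set R := RJ ℓ lam J L with hRdef
  set W := WJ ℓ lam J L with hWdef
  set m : ℝ := (J.card : ℝ) with hmdef
  by_cases hc : ∃ D ∈ J, edgeTo x D ∉ ω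
  · obtain ⟨D₀, hD₀, hcl⟩ := hc
    have hc1 : 1 ≤ ∑ D ∈ J, cl (edgeTo x D) ω := by
      have h1 : cl (edgeTo x D₀) ω = 1 := by
        unfold cl
        rw [if_neg hcl]
      rw [← h1]
      exact Finset.single_le_sum (f := fun D => cl (edgeTo x D) ω)
        (fun D _ => cl_nonneg _ _) hD₀
    rw [e1] at hopen ⊢
    set c := ∑ D ∈ J, cl (edgeTo x D) ω with hcdef
    by_cases hc' : ∃ D ∈ Jᶜ, edgeTo x D ∉ ω
    · obtain ⟨D₁, hD₁, hcl₁⟩ := hc'
      have hc2 : 1 ≤ ∑ D ∈ Jᶜ, cl (edgeTo x D) ω := by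
        have h1 : cl (edgeTo x D₁) ω = 1 := by
          unfold cl
          rw [if_neg hcl₁]
        rw [← h1]
        exact Finset.single_le_sum (f := fun D => cl (edgeTo x D) ω)
          (fun D _ => cl_nonneg _ _) hD₁
      set c' := ∑ D ∈ Jᶜ, cl (edgeTo x D) ω with hc'def
      have g1 : 0 ≤ (∑ D ∈ Jᶜ, rhoJ ℓ lam L D * (1 - cl (edgeTo x D) ω)) /
          (m - c + ∑ D ∈ Jᶜ, wJ ℓ lam L D * (1 - cl (edgeTo x D) ω)) :=
        div_nonneg e5 (by linarith)
      have g2 : R / (m + W) ≤ R / 2 :=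
        div_le_div_of_nonneg_left hR.le (by norm_num) (by linarith)
      have g3 : R / ((m + W) * (m - 1 + W)) ≤ R / 2 := by
        refine div_le_div_of_nonneg_left hR.le (by norm_num) ?_
        nlinarith
      have g4 : R / ((m + W) * (m - 1 + W)) * c ≤ R / 2 * c :=
        mul_le_mul_of_nonneg_right g3 (by linarith)
      have g5 : 0 ≤ 1 / (m + W) * ∑ D ∈ Jᶜ, rhoJ ℓ lam L D * cl (edgeTo x D) ω :=
        mul_nonneg (div_nonneg zero_le_one (by linarith)) e6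
      have g6 : R * c ≤ R * (c * c') := by
        refine mul_le_mul_of_nonneg_left ?_ hR.le
        nlinarith
      have g7 : R / 2 ≤ R / 2 * c := by nlinarith
      linarith
    · push Not at hc'
      have hcl0 : ∀ D ∈ Jᶜ, cl (edgeTo x D) ω = 0 := by
        intro D hD
        unfold cl
        rw [if_pos (hc' D hD)]
      have f1 : ∑ D ∈ Jᶜ, rhoJ ℓ lam L D * (1 - cl (edgeTo x D) ω) = R := by
        rw [hRdef]
        unfold RJ
        exact Finset.sum_congr rfl fun D hD => by rw [hcl0 D hD]; ring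
      have f2 : ∑ D ∈ Jᶜ, wJ ℓ lam L D * (1 - cl (edgeTo x D) ω) = W := by
        rw [hWdef]
        unfold WJ
        exact Finset.sum_congr rfl fun D hD => by rw [hcl0 D hD]; ring
      have f3 : ∑ D ∈ Jᶜ, rhoJ ℓ lam L D * cl (edgeTo x D) ω = 0 :=
        Finset.sum_eq_zero fun D hD => by rw [hcl0 D hD, mul_zero]
      have f4 : ∑ D ∈ Jᶜ, cl (edgeTo x D) ω = 0 := Finset.sum_eq_zero hcl0
      rw [f1, f2, f3, f4, mul_zero, mul_zero, mul_zero]
      have n1 : 0 < m + W := by linarith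
      have n2 : 0 < m - 1 + W := by linarith
      have n3 : 0 < m - c + W := by linarith
      have g1 : R / (m + W) + R / ((m + W) * (m - 1 + W)) * c ≤ R / (m - c + W) := by
        have g2 : R / (m - c + W) - R / (m + W) = R * c / ((m + W) * (m - c + W)) := by
          field_simp
          ring
        have g3 : R / ((m + W) * (m - 1 + W)) * c = R * c / ((m + W) * (m - 1 + W)) := by
          ring
        have g4 : R * c / ((m + W) * (m - 1 + W)) ≤ R * c / ((m + W) * (m - c + W)) := by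
          refine div_le_div_of_nonneg_left (mul_nonneg hR.le (by linarith))
            (mul_pos n1 n3) ?_
          exact mul_le_mul_of_nonneg_left (by linarith) n1.le
        linarith
      linarith
  · push Not at hc
    have hcl0 : ∀ D ∈ J, cl (edgeTo x D) ω = 0 := by
      intro D hD
      unfold cl
      rw [if_pos (hc D hD)]
    have f4 : ∑ D ∈ J, cl (edgeTo x D) ω = 0 := Finset.sum_eq_zero hcl0
    rw [e1, f4, mul_zero, zero_mul, mul_zero, sub_zero, sub_zero, add_zero]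
    set W' := ∑ D ∈ Jᶜ, wJ ℓ lam L D * (1 - cl (edgeTo x D) ω) with hW'
    have g1 : (∑ D ∈ Jᶜ, rhoJ ℓ lam L D * (1 - cl (edgeTo x D) ω)) / (m + W) ≤
        (∑ D ∈ Jᶜ, rhoJ ℓ lam L D * (1 - cl (edgeTo x D) ω)) / (m + W') :=
      div_le_div_of_nonneg_left e5 (by linarith) (by linarith)
    rw [e2, sub_div] at g1
    have g2 : 1 / (m + W) * ∑ D ∈ Jᶜ, rhoJ ℓ lam L D * cl (edgeTo x D) ω =
        (∑ D ∈ Jᶜ, rhoJ ℓ lam L D * cl (edgeTo x D) ω) / (m + W) := by ring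
    rw [g2, e2]
    linarith

end Pool.Agent.P2ec0h
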