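import Pool.Agent.Lib.P2ec0h.AlarmJ

/-!
# Expectations: the visits below the alarm height and below the armed height
-/

open MeasureTheory ProbabilityTheory Filter Topology Function
open scoped unitInterval ENNReal

namespace Pool.Agent.P2ec0h

open Pool.Agent.P2ec0f3 Pool.Agent.P2ec0g

variable {d : ℕ}

/-- The truncated Lyapunov function. -/
noncomputable def lc (k : ℤ) : ℝ := if -1 ≤ k then lf k else 0

lemma lc_nonneg (k : ℤ) : 0 ≤ lc k := by
  unfold lc
  split_ifs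
  · exact lf_nonneg k
  · exact le_rfl

lemma lc_le (k : ℤ) : lc k ≤ 3 / 2 := by
  unfold lc
  split_ifs with h
  · have := lf_antitone h
    rw [lf_neg_one] at this
    exact this
  · norm_num

lemma lc_le_lf (k : ℤ) : lc k ≤ lf k := by
  unfold lc
  split_ifs with h
  · exact le_rfl
  · exact lf_nonneg k

lemma lf_pred_le_two {k : ℤ} (h : -1 ≤ k) : lf (k - 1) ≤ 2 * lc k := by
  unfold lc
  rw [if_pos h]
  rcases le_or_gt k 0 with h0 | h0
  · rw [lf_pred_of_nonpos h0, lf_of_nonpos h0]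
    have : (k : ℝ) ≤ 0 := by exact_mod_cast h0
    linarith
  · rw [lf_pred_of_pos h0]

lemma lf_pred_le_const {k : ℤ} (h : -1 ≤ k) : lf (k - 1) ≤ 2 := by
  have h1 := lf_antitone (show (-2 : ℤ) ≤ k - 1 by omega)
  rw [lf_of_nonpos (by norm_num : (-2 : ℤ) ≤ 0)] at h1
  push_cast at h1
  linarith

lemma abs_lf_add_le (k : ℤ) {j : ℤ} (hj : j = 1 ∨ j = -1 ∨ j = 0) :
    |lf (k + j) - lf k| ≤ 1 / 2 := by
  rw [abs_le]
  rcases hj with rfl | rfl | rfl
  · constructor
    · rcases le_or_gt k 0 with hk | hk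
      · rw [lf_succ_of_nonpos hk]; linarith
      · rw [lf_succ_of_pos hk]; linarith [lf_le_half hk]
    · linarith [lf_succ_le k]
  · constructor
    · have h1 := lf_succ_le (k - 1)
      rw [sub_add_cancel] at h1
      rw [← sub_eq_add_neg]
      linarith
    · have := lf_pred_le k
      rw [← sub_eq_add_neg]
      linarith
  · simp

variable {ℓ : Fin d → ℝ} {lam : ℝ} {J : Finset (Fin d × Bool)} {ω : Set (Edge d)} {x : Vtx d}

lemma dJ_cases {L δ : ℝ} (hG : GapJ ℓ J L δ) (D : Fin d × Bool) :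
    dJ J D = 1 ∨ dJ J D = -1 ∨ dJ J D = 0 := by
  have h1 := neg_one_le_dJ hG D
  have h2 := dJ_le_one hG D
  omega

lemma abs_drift_lfJ_le {L δ : ℝ} (hG : GapJ ℓ J L δ) (a : ℤ) :
    |drift ℓ lam ω (fun y => lf (hJ J y - a)) x| ≤ 1 / 2 := by
  rw [drift_eq]
  refine (Finset.abs_sum_le_sum_abs _ _).trans ?_
  have h1 : ∀ D ∈ (Finset.univ : Finset (Fin d × Bool)),
      |sp ℓ lam ω x D * (lf (hJ J (nbr x D) - a) - lf (hJ J x - a))| ≤
        sp ℓ lam ω x D * (1 / 2) := by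
    intro D _
    rw [abs_mul, abs_of_nonneg (sp_nonneg ..)]
    refine mul_le_mul_of_nonneg_left ?_ (sp_nonneg ..)
    rw [hJ_nbr, show hJ J x + dJ J D - a = (hJ J x - a) + dJ J D by ring]
    exact abs_lf_add_le _ (dJ_cases hG D)
  refine (Finset.sum_le_sum h1).trans ?_
  rw [← Finset.sum_mul]
  have := sum_sp_le ℓ lam ω x
  linarith

/-- The drift of the Lyapunov function at an unblocked vertex. -/
lemma drift_lfJ_open {L δ ε : ℝ} (hG : GapJ ℓ J L δ) (hlam : 0 < lam)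
    (hε : Real.exp (-(lam * δ)) ≤ ε) (hε2 : 2 * d * ε ≤ 1 / 100)
    (h : ¬ Blk J ω x) (a : ℤ) {θ : ℤ → ℝ} (hθ1 : ∀ k, k ≤ 0 → θ k ≤ 2 / 5)
    (hθ2 : ∀ k, 0 < k → θ k ≤ 2 / 5 * lf k) :
    drift ℓ lam ω (fun y => lf (hJ J y - a)) x ≤ - θ (hJ J x - a) := by
  have hanti : Antitone (fun k : ℤ => lf (k - a)) := fun i j hij => lf_antitone (by omega)
  have h0 := drift_hJ_le (lam := lam) (ω := ω) (x := x) hG hanti
  have h1 := sum_compl_le hG hlam hε h
  have h2 := one_sub_pJ_le hG hlam hε h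
  refine h0.trans ?_
  set P := pJ ℓ lam ω J x with hP
  set Q := ∑ D ∈ Jᶜ, sp ℓ lam ω x D with hQ
  have hQ0 : 0 ≤ Q := Finset.sum_nonneg fun _ _ => sp_nonneg ..
  have hP0 : 0 ≤ P := pJ_nonneg
  have hP1 : P ≤ 1 := pJ_le_one
  have hP2 : 99 / 100 ≤ P := by linarith
  have hQ1 : Q ≤ 1 / 100 := by
    have := mul_le_mul_of_nonneg_right hε2 hP0
    linarith
  set k := hJ J x - a with hk
  have e1 : hJ J x + 1 - a = k + 1 := by rw [hk]; ring
  have e2 : hJ J x - 1 - a = k - 1 := by rw [hk]; ring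
  simp only [e1, e2]
  rcases le_or_gt k 0 with hk0 | hk0
  · rw [lf_succ_of_nonpos hk0, lf_pred_of_nonpos hk0]
    have := hθ1 k hk0
    nlinarith
  · rw [lf_succ_of_pos hk0, lf_pred_of_pos hk0]
    have hl := lf_nonneg k
    have := hθ2 k hk0
    have h3 : P * (lf k / 2 - lf k) + Q * (2 * lf k - lf k) = lf k * (Q - P / 2) := by ring
    rw [h3]
    have h4 : lf k * (Q - P / 2) ≤ lf k * (- (2 / 5)) :=
      mul_le_mul_of_nonneg_left (by linarith) hl
    linarith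

variable (ℓ lam J ω)

/-- The probability of a blocked vertex at time `n`. -/
noncomputable def BJ (n : ℕ) : ℝ := (lawAt ℓ lam ω n).real {x | Blk J ω x}

/-- The probability of a change of the alarm height. -/
noncomputable def CJ (n : ℕ) : ℝ :=
  (quenched ℓ lam ω).real {X | al J ω X n < al J ω X (n + 1)}

open Classical in
/-- The integrand of `TH`. -/
noncomputable def phi (θ : ℤ → ℝ) (x : Vtx d) (a : ℤ) : ℝ :=
  if Blk J ω x then 0 else θ (hJ J x - a)

/-- The expectation of a function of the distance to the alarm height at unblocked vertices. -/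
noncomputable def TH (θ : ℤ → ℝ) (n : ℕ) : ℝ :=
  ∫ X, phi J ω θ (X n) (al J ω X n) ∂(quenched ℓ lam ω)

/-- The expectation of the Lyapunov function. -/
noncomputable def elJ (n : ℕ) : ℝ :=
  ∫ X, lf (hJ J (X n) - al J ω X n) ∂(quenched ℓ lam ω)

/-- The expectation of the Lyapunov function of the armed height. -/
noncomputable def eaJ (n : ℕ) : ℝ :=
  ∫ X, lf (hJ J (X n) - ar J ω X n) ∂(quenched ℓ lam ω)

/-- The event of an unblocked vertex not above the armed height. -/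
def zE (n : ℕ) : Set (ℕ → Vtx d) := {X | ¬ Blk J ω (X n) ∧ hJ J (X n) ≤ ar J ω X n}

/-- The probability of this event. -/
noncomputable def ZJ (n : ℕ) : ℝ := (quenched ℓ lam ω).real (zE J ω n)

lemma BJ_nonneg (n : ℕ) : 0 ≤ BJ ℓ lam J ω n := measureReal_nonneg

lemma CJ_nonneg (n : ℕ) : 0 ≤ CJ ℓ lam J ω n := measureReal_nonneg

lemma ZJ_nonneg (n : ℕ) : 0 ≤ ZJ ℓ lam J ω n := measureReal_nonneg

lemma elJ_nonneg (n : ℕ) : 0 ≤ elJ ℓ lam J ω n := integral_nonneg fun _ => lf_nonneg _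

lemma eaJ_nonneg (n : ℕ) : 0 ≤ eaJ ℓ lam J ω n := integral_nonneg fun _ => lf_nonneg _

lemma elJ_zero : elJ ℓ lam J ω 0 = 3 / 2 := by
  have h : elJ ℓ lam J ω 0 = ∫ _X, (3 / 2 : ℝ) ∂(quenched ℓ lam ω) := by
    unfold elJ
    refine integral_congr_ae ?_
    filter_upwards [ae_start ℓ lam ω] with X hX
    rw [hX, hJ_zero]
    simp only [al]
    rw [show (0 : ℤ) - 1 = -1 by norm_num, lf_neg_one]
  rw [h]
  simp

lemma eaJ_zero : eaJ ℓ lam J ω 0 = 1 := by
  have h : eaJ ℓ lam J ω 0 = ∫ _X, (1 : ℝ) ∂(quenched ℓ lam ω) := by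
    unfold eaJ
    refine integral_congr_ae ?_
    filter_upwards [ae_start ℓ lam ω] with X hX
    rw [hX, hJ_zero]
    simp only [ar]
    rw [show (0 : ℤ) - 0 = 0 by norm_num, lf_of_nonpos le_rfl]
    norm_num
  rw [h]
  simp

variable {J} in
lemma abs_lfJ {X : ℕ → Vtx d} (hX : ∀ m, X m ∈ box d m) (n : ℕ) {y : Vtx d}
    (hy : y ∈ box d (n + 1)) {b : ℤ} (hb0 : 0 ≤ b) (hb : b ≤ al J ω X n) :
    |lf (hJ J y - b)| ≤ 2 * (J.card * (n + 1)) + 2 := by
  refine (lf_abs_le _).trans ?_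
  have h1 := abs_hJ_le J hy
  have h2 := al_le J ω hX n
  have h3 : (J.card * n : ℤ) ≤ J.card * ((n + 1 : ℕ) : ℤ) :=
    mul_le_mul_of_nonneg_left (by push_cast; omega) (by positivity)
  have h4 : |hJ J y - b| ≤ 2 * (J.card * ((n + 1 : ℕ) : ℤ)) + 1 := by
    rw [abs_le] at h1 ⊢
    obtain ⟨h5, h6⟩ := h1
    have h7 : (0 : ℤ) ≤ J.card * ((n + 1 : ℕ) : ℤ) := by positivity
    constructor <;> linarith
  have h5 : |((hJ J y - b : ℤ) : ℝ)| ≤ 2 * (J.card * (n + 1)) + 1 := by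
    rw [← Int.cast_abs]
    exact_mod_cast h4
  linarith

lemma pastA_fun {β : Type*} (n : ℕ) (φ : Vtx d → ℤ → ℤ → β) :
    PastA n (fun X => φ (X n) (al J ω X n) (ar J ω X n)) := by
  intro X Y h
  have h1 : al J ω X n = al J ω Y n := pastA_al J ω n X Y h
  have h2 : ar J ω X n = ar J ω Y n := pastA_ar J ω n X Y h
  simp only
  rw [h n le_rfl, h1, h2]

lemma measurableSet_changeJ (n : ℕ) :
    MeasurableSet {X : ℕ → Vtx d | al J ω X n < al J ω X (n + 1)} :=
  measurableSet_lt (pastA_al J ω n).measurable (pastA_al J ω (n + 1)).measurable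

lemma measurableSet_zE (n : ℕ) : MeasurableSet (zE J ω n) := by
  have h : PastA n (fun X => (¬ Blk J ω (X n) ∧ hJ J (X n) ≤ ar J ω X n : Prop)) :=
    pastA_fun J ω n (fun x _ r => (¬ Blk J ω x ∧ hJ J x ≤ r : Prop))
  have h1 := h.measurable
  exact h1 (MeasurableSet.of_discrete (s := {q : Prop | q}))

lemma lf_al_succ (X : ℕ → Vtx d) (n : ℕ) :
    lf (hJ J (X (n + 1)) - al J ω X (n + 1)) ≤ lf (hJ J (X (n + 1)) - al J ω X n) +
      3 / 2 * ({X | al J ω X n < al J ω X (n + 1)} : Set (ℕ → Vtx d)).indicator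
        (fun _ => (1 : ℝ)) X := by
  classical
  by_cases h : al J ω X n < al J ω X (n + 1)
  · rw [Set.indicator_of_mem (by exact h)]
    have h1 : al J ω X (n + 1) ≤ max (al J ω X n) (hJ J (X (n + 1)) + 1) := by
      conv_lhs => unfold al
      split_ifs
      · exact le_max_left _ _
      · exact max_le_max le_rfl (tauJ_le ..)
    have h2 : min (hJ J (X (n + 1)) - al J ω X n) (-1) ≤
        hJ J (X (n + 1)) - al J ω X (n + 1) := by
      omega
    have h3 := lf_antitone h2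
    have h4 := lf_min (hJ J (X (n + 1)) - al J ω X n)
    linarith
  · rw [Set.indicator_of_notMem (by exact h)]
    have h1 := al_le_succ J ω X n
    have h2 : al J ω X (n + 1) = al J ω X n := by omega
    rw [h2]
    linarith

lemma integrable_indJ (n : ℕ) (s : Set (Vtx d)) :
    Integrable (fun X : ℕ → Vtx d => s.indicator (fun _ => (1 : ℝ)) (X n)) (quenched ℓ lam ω) :=
  (pastA_fun ∅ ω n (fun x _ _ => s.indicator (fun _ => (1 : ℝ)) x)).integrable ℓ lam ω (C := 1)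
    (ae_of_all _ fun X => by
      by_cases h : X n ∈ s
      · simp [h]
      · simp [h])

lemma abs_phi_le {θ : ℤ → ℝ} (hθ : ∀ k, |θ k| ≤ 2) (x : Vtx d) (a : ℤ) :
    |phi J ω θ x a| ≤ 2 := by
  unfold phi
  split_ifs
  · simp
  · exact hθ _

lemma integrable_phi (n : ℕ) {θ : ℤ → ℝ} (hθ : ∀ k, |θ k| ≤ 2) :
    Integrable (fun X : ℕ → Vtx d => phi J ω θ (X n) (al J ω X n)) (quenched ℓ lam ω) :=
  (pastA_fun J ω n (fun x a _ => phi J ω θ x a)).integrable ℓ lam ω (C := 2)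
    (ae_of_all _ fun _ => abs_phi_le J ω hθ _ _)

variable {ℓ lam J} in
/-- One step of the Lyapunov function. -/
lemma elJ_succ_le {L δ ε : ℝ} (hG : GapJ ℓ J L δ) (hlam : 0 < lam)
    (hε : Real.exp (-(lam * δ)) ≤ ε) (hε2 : 2 * d * ε ≤ 1 / 100) {θ : ℤ → ℝ}
    (hθ : ∀ k, |θ k| ≤ 2) (hθ1 : ∀ k, k ≤ 0 → θ k ≤ 2 / 5)
    (hθ2 : ∀ k, 0 < k → θ k ≤ 2 / 5 * lf k) (n : ℕ) :
    elJ ℓ lam J ω (n + 1) ≤ elJ ℓ lam J ω n + 1 / 2 * BJ ℓ lam J ω n - TH ℓ lam J ω θ n
      + 3 / 2 * CJ ℓ lam J ω n := by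
  classical
  set T := quenched ℓ lam ω with hT
  have hsub : ∀ X : ℕ → Vtx d, X n ∈ box d n → X n ∈ box d (n + 1) := fun X h =>
    box_mono (Nat.le_succ n) h
  have h01 : ∀ X n, 0 ≤ al J ω X n := fun X n => by have := one_le_al J ω X n; omega
  have i1 : Integrable (fun X => lf (hJ J (X (n + 1)) - al J ω X n)) T := by
    have hp : PastA (n + 1) (fun X : ℕ → Vtx d => lf (hJ J (X (n + 1)) - al J ω X n)) := by
      intro X Y h
      have h1 : al J ω X n = al J ω Y n := pastA_al J ω n X Y fun m hm => h m (by omega)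
      simp only
      rw [h (n + 1) le_rfl, h1]
    refine hp.integrable ℓ lam ω (C := 2 * (J.card * (n + 1)) + 2) ?_
    filter_upwards [ae_good ℓ lam ω] with X hX
    exact abs_lfJ ω hX.2 n (hX.2 (n + 1)) (h01 X n) le_rfl
  have i2 : Integrable (fun X => lf (hJ J (X n) - al J ω X n)) T := by
    refine (pastA_fun J ω n (fun x a _ => lf (hJ J x - a))).integrable ℓ lam ω
      (C := 2 * (J.card * (n + 1)) + 2) ?_
    filter_upwards [ae_good ℓ lam ω] with X hX
    exact abs_lfJ ω hX.2 n (hsub X (hX.2 n)) (h01 X n) le_rfl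
  have i3 : Integrable (fun X => lf (hJ J (X (n + 1)) - al J ω X (n + 1))) T := by
    refine (pastA_fun J ω (n + 1) (fun x a _ => lf (hJ J x - a))).integrable ℓ lam ω
      (C := 2 * (J.card * (((n + 1 : ℕ) : ℝ) + 1)) + 2) ?_
    filter_upwards [ae_good ℓ lam ω] with X hX
    exact abs_lfJ ω hX.2 (n + 1) (box_mono (Nat.le_succ _) (hX.2 (n + 1))) (h01 X (n + 1)) le_rfl
  have i4 : Integrable (fun X => drift ℓ lam ω (fun y => lf (hJ J y - al J ω X n)) (X n)) T :=
    (pastA_fun J ω n (fun x a _ => drift ℓ lam ω (fun y => lf (hJ J y - a)) x)).integrable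
      ℓ lam ω (C := 1 / 2) (ae_of_all _ fun X => abs_drift_lfJ_le hG _)
  set sB : Set (Vtx d) := {x | Blk J ω x} with hsB
  have i5 := integrable_indJ ℓ lam ω n sB
  have i6 : Integrable (fun X => ({X | al J ω X n < al J ω X (n + 1)} :
      Set (ℕ → Vtx d)).indicator (fun _ => (1 : ℝ)) X) T :=
    (integrable_const _).indicator (measurableSet_changeJ J ω n)
  have i7 := integrable_phi ℓ lam J ω n hθ
  have s1 : elJ ℓ lam J ω (n + 1) ≤ ∫ X, lf (hJ J (X (n + 1)) - al J ω X n) ∂T +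
      3 / 2 * CJ ℓ lam J ω n := by
    have h1 : elJ ℓ lam J ω (n + 1) ≤ ∫ X, (lf (hJ J (X (n + 1)) - al J ω X n) +
      3 / 2 * ({X | al J ω X n < al J ω X (n + 1)} : Set (ℕ → Vtx d)).indicator
        (fun _ => (1 : ℝ)) X) ∂T :=
      integral_mono i3 (i1.add (i6.const_mul _)) fun X => lf_al_succ J ω X n
    rw [integral_add i1 (i6.const_mul _), integral_const_mul,
      integral_indicator_const _ (measurableSet_changeJ J ω n), smul_eq_mul, mul_one] at h1
    exact h1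
  have s2 : ∫ X, lf (hJ J (X (n + 1)) - al J ω X n) ∂T =
      ∫ X, (lf (hJ J (X n) - al J ω X n) +
        drift ℓ lam ω (fun y => lf (hJ J y - al J ω X n)) (X n)) ∂T :=
    integral_stepA ℓ lam ω (pastA_al J ω n) (fun y a => lf (hJ J y - a))
      (C := 2 * (J.card * (n + 1)) + 2) (by
      filter_upwards [ae_good ℓ lam ω] with X hX
      intro y hy
      exact abs_lfJ ω hX.2 n hy (h01 X n) le_rfl)
  have j1 : Integrable (fun X : ℕ → Vtx d => 1 / 2 * sB.indicator (fun _ => (1 : ℝ)) (X n)) T :=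
    i5.const_mul _
  have s3 : ∫ X, (lf (hJ J (X n) - al J ω X n) +
        drift ℓ lam ω (fun y => lf (hJ J y - al J ω X n)) (X n)) ∂T ≤
      ∫ X, (lf (hJ J (X n) - al J ω X n) + (1 / 2 * sB.indicator (fun _ => (1 : ℝ)) (X n)
        - phi J ω θ (X n) (al J ω X n))) ∂T := by
    refine integral_mono_ae (i2.add i4) (i2.add (j1.sub i7)) ?_
    filter_upwards [ae_good ℓ lam ω] with X hX
    refine add_le_add le_rfl ?_
    by_cases hB : Blk J ω (X n)
    · have hb : X n ∈ sB := hB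
      rw [Set.indicator_of_mem hb]
      have := abs_drift_lfJ_le (lam := lam) (ω := ω) (x := X n) hG (al J ω X n)
      have h2 : phi J ω θ (X n) (al J ω X n) = 0 := by
        unfold phi
        rw [if_pos hB]
      rw [h2]
      linarith [(abs_le.1 this).2]
    · have hb : X n ∉ sB := hB
      rw [Set.indicator_of_notMem hb]
      have := drift_lfJ_open hG hlam hε hε2 hB (al J ω X n) hθ1 hθ2
      have h2 : phi J ω θ (X n) (al J ω X n) = θ (hJ J (X n) - al J ω X n) := by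
        unfold phi
        rw [if_neg hB]
      rw [h2]
      linarith
  have s4 : ∫ X, (lf (hJ J (X n) - al J ω X n) + (1 / 2 * sB.indicator (fun _ => (1 : ℝ)) (X n)
        - phi J ω θ (X n) (al J ω X n))) ∂T =
      ∫ X, lf (hJ J (X n) - al J ω X n) ∂T + (1 / 2 * (lawAt ℓ lam ω n).real sB
        - ∫ X, phi J ω θ (X n) (al J ω X n) ∂T) := by
    rw [← integral_ind ℓ lam ω n sB, ← integral_const_mul, ← integral_sub j1 i7]
    exact integral_add i2 (j1.sub i7)
  rw [s4] at s3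
  have e1 : elJ ℓ lam J ω n = ∫ X, lf (hJ J (X n) - al J ω X n) ∂T := rfl
  have e2 : BJ ℓ lam J ω n = (lawAt ℓ lam ω n).real sB := rfl
  have e3 : TH ℓ lam J ω θ n = ∫ X, phi J ω θ (X n) (al J ω X n) ∂T := rfl
  rw [e1, e2, e3]
  linarith

variable {ℓ lam J} in
lemma sum_TH_le {L δ ε : ℝ} (hG : GapJ ℓ J L δ) (hlam : 0 < lam)
    (hε : Real.exp (-(lam * δ)) ≤ ε) (hε2 : 2 * d * ε ≤ 1 / 100) {θ : ℤ → ℝ}
    (hθ : ∀ k, |θ k| ≤ 2) (hθ1 : ∀ k, k ≤ 0 → θ k ≤ 2 / 5)
    (hθ2 : ∀ k, 0 < k → θ k ≤ 2 / 5 * lf k) (N : ℕ) :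
    ∑ n ∈ Finset.range N, TH ℓ lam J ω θ n ≤ 3 / 2 +
      1 / 2 * ∑ n ∈ Finset.range N, BJ ℓ lam J ω n +
      3 / 2 * ∑ n ∈ Finset.range N, CJ ℓ lam J ω n := by
  have h : elJ ℓ lam J ω N ≤ 3 / 2 + 1 / 2 * ∑ n ∈ Finset.range N, BJ ℓ lam J ω n
      - ∑ n ∈ Finset.range N, TH ℓ lam J ω θ n
      + 3 / 2 * ∑ n ∈ Finset.range N, CJ ℓ lam J ω n := by
    induction N with
    | zero => simp [elJ_zero]
    | succ N ih =>
      have := elJ_succ_le ω hG hlam hε hε2 hθ hθ1 hθ2 N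
      rw [Finset.sum_range_succ, Finset.sum_range_succ, Finset.sum_range_succ]
      linarith
  have := elJ_nonneg ℓ lam J ω N
  linarith

end Pool.Agent.P2ec0h
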