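import Pool.Agent.Lib.P2ec0g.Fin

/-!
# The annealed inequality in the limit, general form
-/

open MeasureTheory ProbabilityTheory Filter Topology Function
open scoped unitInterval ENNReal

namespace Pool.Agent.P2ec0h

open Pool.Agent.P2ec0f3 Pool.Agent.P2ec0g

/-- The annealed inequality in the limit. -/
theorem limit_gen {d : ℕ} {ℓ : Fin d → ℝ} {lam : ℝ} {p : I} (hp : criticalParam d < p)
    {v : Fin d → ℝ} (hv : IsVelocity ℓ lam p v) {f α β cA C L δ : ℝ} (hδ : 0 < δ)
    (hα : 0 ≤ α) (hβ : 0 ≤ β) (hcA : 0 ≤ cA) (A B Rn : ℕ → Set (Edge d) → ℝ)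
    (hAi : ∀ n, Integrable (A n) (percolation d p))
    (hBi : ∀ n, Integrable (B n) (percolation d p))
    (hRi : ∀ n, Integrable (Rn n) (percolation d p))
    (hA0 : ∀ n ω, 0 ≤ A n ω) (hB0 : ∀ n ω, 0 ≤ B n ω) (hR0 : ∀ n ω, 0 ≤ Rn n ω)
    (hAnw : ∀ n ω, A n ω ≤ cA * nw ℓ lam ω n)
    (hAint : ∀ n, ∫ ω, A n ω ∂(percolation d p) = α * ∫ ω, Rn n ω ∂(percolation d p))
    (hBint : ∀ n, ∫ ω, B n ω ∂(percolation d p) ≤ β * ∫ ω, nw ℓ lam ω n ∂(percolation d p))
    (hR : ∀ (N : ℕ) ω, N * (1 - 2 / δ * L) + 2 / δ * eh ℓ lam N ω ≤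
      ∑ n ∈ Finset.range N, Rn n ω)
    (hmain : ∀ (N : ℕ) ω, eh ℓ lam (N + 1) ω ≤
      (N + 1) * f - ∑ n ∈ Finset.range N, A n ω + ∑ n ∈ Finset.range (N + 1), B n ω + C) :
    ∑ j, v j * ℓ j ≤ f - α * (1 - 2 / δ * (L - ∑ j, v j * ℓ j)) + β := by
  classical
  set P := percolation d p with hP
  set S := zeroInfinite d with hS
  set V := ∑ j, v j * ℓ j with hV
  have hSm : MeasurableSet S := measurableSet_zeroInfinite
  set s := P.real S with hs
  have hs0 : 0 < s := by
    rw [hs, measureReal_def]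
    exact ENNReal.toReal_pos (percolation_ne_zero hp) (measure_ne_top _ _)
  have hsc : P.real Sᶜ ≤ 1 := measureReal_le_one
  -- the expected heights on the event `S`
  set G : ℕ → ℝ := fun n => ∫ ω in S, eh ℓ lam n ω ∂P with hGdef
  have hGlim : Tendsto (fun n : ℕ => G n / n) atTop (𝓝 (V * s)) := by
    have h1 : ∀ n : ℕ, G n / n = ∫ ω in S, eh ℓ lam n ω / n ∂P := fun n => by
      rw [integral_div]
    simp_rw [h1]
    have h2 : V * s = ∫ _ω in S, V ∂P := by
      rw [setIntegral_const, smul_eq_mul, mul_comm]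
    rw [h2]
    refine tendsto_integral_of_dominated_convergence (fun _ => ∑ j, |ℓ j|) ?_
      (integrable_const _) ?_ ?_
    · intro n
      exact ((eh_depOn ℓ lam n).measurable.div_const _).aestronglyMeasurable
    · intro n
      exact ae_of_all _ fun ω => by
        rw [Real.norm_eq_abs]
        exact abs_eh_div_le ℓ lam n ω
    · filter_upwards [ae_of_isVelocity ℓ lam hv] with ω hω
      exact tendsto_integral_height ℓ lam ω hω
  -- the new vertices on the complement of `S`
  set J : ℕ → ℝ := fun N => ∫ ω in Sᶜ, ∑ n ∈ Finset.range N, nw ℓ lam ω n ∂P with hJ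
  have hJlim : Tendsto (fun N : ℕ => J N / (N + 1)) atTop (𝓝 0) := by
    have h1 : ∀ N : ℕ, J N / (N + 1) =
        ∫ ω in Sᶜ, (∑ n ∈ Finset.range N, nw ℓ lam ω n) / (N + 1) ∂P := fun N => by
      rw [integral_div]
    simp_rw [h1]
    have h2 : (0 : ℝ) = ∫ _ω in Sᶜ, (0 : ℝ) ∂P := by simp
    rw [h2]
    refine tendsto_integral_of_dominated_convergence (fun _ => 1) ?_
      (integrable_const _) ?_ ?_
    · intro N
      refine Measurable.aestronglyMeasurable (Measurable.div_const ?_ _)
      refine Finset.measurable_sum _ fun n _ => ?_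
      obtain ⟨T, hT⟩ := nw_depOn (ℓ := ℓ) (lam := lam) n
      exact hT.measurable
    · intro N
      refine ae_of_all _ fun ω => ?_
      have hN : (0 : ℝ) < N + 1 := by positivity
      rw [Real.norm_eq_abs, abs_div, abs_of_pos hN, abs_of_nonneg
        (Finset.sum_nonneg fun n _ => nw_nonneg ℓ lam ω n), div_le_one hN]
      linarith [sum_nw_le ℓ lam ω N]
    · filter_upwards [ae_restrict_mem hSm.compl] with ω hω
      have hfin : {x | (openGraph ω).Reachable 0 x}.Finite := by
        by_contra h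
        exact hω h
      set c : ℝ := (({x | (openGraph ω).Reachable 0 x}.ncard : ℕ) : ℝ) with hc
      have h3 : Tendsto (fun N : ℕ => c / (N + 1)) atTop (𝓝 0) :=
        tendsto_const_div_atTop_nhds_zero_nat c |>.comp (tendsto_add_atTop_nat 1) |>.congr
          fun N => by simp
      refine tendsto_of_tendsto_of_tendsto_of_le_of_le tendsto_const_nhds h3 ?_ ?_
      · intro N
        exact div_nonneg (Finset.sum_nonneg fun n _ => nw_nonneg ℓ lam ω n) (by positivity)
      · intro N
        exact div_le_div_of_nonneg_right (sum_nw_le_ncard ℓ lam ω hfin N) (by positivity)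
  -- the inequality for each `N`
  have hmainN : ∀ N : ℕ, G (N + 1) ≤ (N + 1) * f * s
      - (α * (N * (1 - 2 / δ * L) * s + 2 / δ * G N) - cA * J N)
      + β * ((N + 1) * s + J N + 1) + C * s := by
    intro N
    have i1 : Integrable (fun ω => ∑ n ∈ Finset.range N, A n ω) P :=
      integrable_finsetSum _ fun n _ => hAi n
    have i2 : Integrable (fun ω => ∑ n ∈ Finset.range N, Rn n ω) P :=
      integrable_finsetSum _ fun n _ => hRi n
    have i3 : ∀ M : ℕ, Integrable (fun ω => ∑ n ∈ Finset.range M, nw ℓ lam ω n) P :=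
      fun M => integrable_finsetSum _ fun n _ => integrable_nw p n
    have i4 : Integrable (fun ω => ∑ n ∈ Finset.range (N + 1), B n ω) P :=
      integrable_finsetSum _ fun n _ => hBi n
    have i5 : ∀ M : ℕ, Integrable (fun ω => eh ℓ lam M ω) P :=
      fun M => (eh_depOn ℓ lam M).integrable P
    have h1 : G (N + 1) ≤ ∫ ω in S, ((N + 1) * f
        - ∑ n ∈ Finset.range N, A n ω
        + ∑ n ∈ Finset.range (N + 1), B n ω + C) ∂P := by
      refine integral_mono (i5 (N + 1)).restrict ?_ fun ω => ?_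
      · exact ((((integrable_const _).sub i1).add i4).add (integrable_const _)).restrict
      · exact hmain N ω
    have h2 : ∫ ω in S, ((N + 1) * f
        - ∑ n ∈ Finset.range N, A n ω
        + ∑ n ∈ Finset.range (N + 1), B n ω + C) ∂P =
        (N + 1) * f * s - ∫ ω in S, ∑ n ∈ Finset.range N, A n ω ∂P
        + ∫ ω in S, ∑ n ∈ Finset.range (N + 1), B n ω ∂P
        + C * s := by
      have j1 : Integrable (fun _ : Set (Edge d) => ((N : ℝ) + 1) * f)
        (P.restrict S) := integrable_const _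
      have j2 : Integrable (fun ω => ∑ n ∈ Finset.range N, A n ω)
        (P.restrict S) := i1.restrict
      have j3 : Integrable (fun ω => ∑ n ∈ Finset.range (N + 1), B n ω)
        (P.restrict S) := i4.restrict
      have j4 : Integrable (fun _ : Set (Edge d) => C) (P.restrict S) :=
        integrable_const _
      have k1 : Integrable (fun ω => ((N : ℝ) + 1) * f
        - ∑ n ∈ Finset.range N, A n ω) (P.restrict S) := j1.sub j2
      have k2 : Integrable (fun ω => ((N : ℝ) + 1) * f
        - ∑ n ∈ Finset.range N, A n ω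
        + ∑ n ∈ Finset.range (N + 1), B n ω) (P.restrict S) := k1.add j3
      rw [integral_add k2 j4, integral_add k1 j3, integral_sub j1 j2, setIntegral_const,
        setIntegral_const]
      simp only [smul_eq_mul]
      ring
    rw [h2] at h1
    -- the term `A`
    have h3 : ∫ ω in S, ∑ n ∈ Finset.range N, A n ω ∂P
        + ∫ ω in Sᶜ, ∑ n ∈ Finset.range N, A n ω ∂P =
        ∫ ω, ∑ n ∈ Finset.range N, A n ω ∂P := integral_add_compl hSm i1
    have h4 : ∫ ω in Sᶜ, ∑ n ∈ Finset.range N, A n ω ∂P ≤ cA * J N := by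
      rw [hJ]
      simp only
      rw [← integral_const_mul]
      refine integral_mono i1.restrict ((i3 N).const_mul cA).restrict fun ω => ?_
      simp only
      rw [Finset.mul_sum]
      exact Finset.sum_le_sum fun n _ => hAnw n ω
    have h5 : ∫ ω, ∑ n ∈ Finset.range N, A n ω ∂P =
        α * ∫ ω, ∑ n ∈ Finset.range N, Rn n ω ∂P := by
      rw [integral_finsetSum _ fun n _ => hAi n,
        integral_finsetSum _ fun n _ => hRi n, Finset.mul_sum]
      exact Finset.sum_congr rfl fun n _ => hAint n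
    have h6 : ∫ ω in S, ∑ n ∈ Finset.range N, Rn n ω ∂P ≤
        ∫ ω, ∑ n ∈ Finset.range N, Rn n ω ∂P :=
      setIntegral_le_integral i2 (ae_of_all _ fun ω =>
        Finset.sum_nonneg fun n _ => hR0 n ω)
    have h7 : N * (1 - 2 / δ * L) * s + 2 / δ * G N ≤
        ∫ ω in S, ∑ n ∈ Finset.range N, Rn n ω ∂P := by
      have h8 : ∫ ω in S, (N * (1 - 2 / δ * L) + 2 / δ * eh ℓ lam N ω) ∂P =
          N * (1 - 2 / δ * L) * s + 2 / δ * G N := by
        rw [integral_add (integrable_const _) ((i5 N).const_mul _).restrict, setIntegral_const,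
          integral_const_mul]
        simp only [smul_eq_mul, hGdef]
        ring
      rw [← h8]
      refine integral_mono ((integrable_const _).add ((i5 N).const_mul _)).restrict
        i2.restrict fun ω => ?_
      exact hR N ω
    have h8 : α * (N * (1 - 2 / δ * L) * s + 2 / δ * G N) - cA * J N ≤
        ∫ ω in S, ∑ n ∈ Finset.range N, A n ω ∂P := by
      have := mul_le_mul_of_nonneg_left (h7.trans h6) hα
      linarith
    -- the term `B`
    have h10 : ∫ ω in S, ∑ n ∈ Finset.range (N + 1), B n ω ∂P ≤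
        ∫ ω, ∑ n ∈ Finset.range (N + 1), B n ω ∂P :=
      setIntegral_le_integral i4 (ae_of_all _ fun ω =>
        Finset.sum_nonneg fun n _ => hB0 n ω)
    have h11 : ∫ ω, ∑ n ∈ Finset.range (N + 1), B n ω ∂P ≤
        β * ∫ ω, ∑ n ∈ Finset.range (N + 1), nw ℓ lam ω n ∂P := by
      rw [integral_finsetSum _ fun n _ => hBi n,
        integral_finsetSum _ fun n _ => integrable_nw p n, Finset.mul_sum]
      exact Finset.sum_le_sum fun n _ => hBint n
    have h12 : ∫ ω in S, ∑ n ∈ Finset.range (N + 1), nw ℓ lam ω n ∂P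
        + ∫ ω in Sᶜ, ∑ n ∈ Finset.range (N + 1), nw ℓ lam ω n ∂P =
        ∫ ω, ∑ n ∈ Finset.range (N + 1), nw ℓ lam ω n ∂P := integral_add_compl hSm (i3 (N + 1))
    have h13 : ∫ ω in S, ∑ n ∈ Finset.range (N + 1), nw ℓ lam ω n ∂P ≤ (N + 1) * s := by
      have h14 : ∫ _ω in S, ((N : ℝ) + 1) ∂P = (N + 1) * s := by
        rw [setIntegral_const, smul_eq_mul, mul_comm]
      rw [← h14]
      refine integral_mono (i3 (N + 1)).restrict (integrable_const _) fun ω => ?_
      have := sum_nw_le ℓ lam ω (N + 1)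
      push_cast at this
      exact this
    have h15 : ∫ ω in Sᶜ, ∑ n ∈ Finset.range (N + 1), nw ℓ lam ω n ∂P ≤ J N + 1 := by
      have h16 : ∫ ω in Sᶜ, (∑ n ∈ Finset.range N, nw ℓ lam ω n + 1) ∂P =
          J N + P.real Sᶜ := by
        rw [integral_add (i3 N).restrict (integrable_const _), setIntegral_const]
        simp [hJ]
      have h17 : ∫ ω in Sᶜ, ∑ n ∈ Finset.range (N + 1), nw ℓ lam ω n ∂P ≤
          ∫ ω in Sᶜ, (∑ n ∈ Finset.range N, nw ℓ lam ω n + 1) ∂P := by
        refine integral_mono (i3 (N + 1)).restrict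
          ((i3 N).restrict.add (integrable_const _)) fun ω => ?_
        simp only [Finset.sum_range_succ]
        linarith [nw_le_one ℓ lam ω N]
      linarith
    have h18 : ∫ ω in S, ∑ n ∈ Finset.range (N + 1), B n ω ∂P ≤
        β * ((N + 1) * s + J N + 1) := by
      refine h10.trans (h11.trans (mul_le_mul_of_nonneg_left ?_ hβ))
      linarith
    linarith
  -- the limits
  have t1 : Tendsto (fun N : ℕ => G (N + 1) / (N + 1)) atTop (𝓝 (V * s)) := by
    have := hGlim.comp (tendsto_add_atTop_nat 1)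
    refine this.congr fun N => ?_
    simp
  have t0 : Tendsto (fun N : ℕ => (N : ℝ) / (N + 1)) atTop (𝓝 1) :=
    tendsto_natCast_div_add_atTop (1 : ℝ)
  have t2 : Tendsto (fun N : ℕ => G N / (N + 1)) atTop (𝓝 (V * s)) := by
    have h1 : Tendsto (fun N : ℕ => G N / N * ((N : ℝ) / (N + 1))) atTop (𝓝 (V * s * 1)) :=
      hGlim.mul t0
    rw [mul_one] at h1
    refine h1.congr' ?_
    filter_upwards [eventually_ge_atTop 1] with N hN
    have : (N : ℝ) ≠ 0 := by positivity
    field_simp
  have t3 : ∀ c : ℝ, Tendsto (fun N : ℕ => c / ((N : ℝ) + 1)) atTop (𝓝 0) := fun c =>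
    tendsto_const_div_atTop_nhds_zero_nat c |>.comp (tendsto_add_atTop_nat 1) |>.congr
      fun N => by simp
  have t4 : Tendsto (fun N : ℕ => f * s
      - (α * (((N : ℝ) / (N + 1)) * ((1 - 2 / δ * L) * s) + 2 / δ * (G N / (N + 1)))
        - cA * (J N / (N + 1)))
      + β * (s + J N / (N + 1) + 1 / ((N : ℝ) + 1))
      + C * s / ((N : ℝ) + 1)) atTop
      (𝓝 (f * s - (α * (1 * ((1 - 2 / δ * L) * s) + 2 / δ * (V * s)) - cA * 0)
        + β * (s + 0 + 0) + 0)) := by
    refine Tendsto.add (Tendsto.add (Tendsto.sub tendsto_const_nhds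
      (Tendsto.sub (Tendsto.const_mul _ (Tendsto.add (t0.mul_const _) (t2.const_mul _)))
        (hJlim.const_mul _))) (Tendsto.const_mul _
        (Tendsto.add (Tendsto.add tendsto_const_nhds hJlim) (t3 1)))) (t3 _)
  have hlim := le_of_tendsto_of_tendsto' t1 t4 fun N => by
    have hN : (0 : ℝ) < N + 1 := by positivity
    have := div_le_div_of_nonneg_right (hmainN N) hN.le
    refine this.trans (le_of_eq ?_)
    field_simp
  have hfin : V * s ≤ (f - α * (1 - 2 / δ * (L - V)) + β) * s := by
    refine hlim.trans (le_of_eq ?_)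
    ring
  exact le_of_mul_le_mul_right hfin hs0

end Pool.Agent.P2ec0h
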