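import Pool.Agent.Lib.P2ec0h.QuenJ
import Pool.Agent.Lib.P2ec0h.LimJ

/-!
# The two regimes and the comparison of the speeds
-/

open MeasureTheory ProbabilityTheory Filter Topology Function
open scoped unitInterval ENNReal

namespace Pool.Agent.P2ec0h

open Pool.Agent.P2ec0f3 Pool.Agent.P2ec0g

variable {d : ℕ} {ℓ : Fin d → ℝ} {lam : ℝ} {J : Finset (Fin d × Bool)}

/-- The annealed inequality of the first regime. -/
lemma regime1 {L δ ε : ℝ} (hG : GapJ ℓ J L δ) (hlam : 0 < lam)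
    (hε : Real.exp (-(lam * δ)) ≤ ε) (hε2 : 2 * d * ε ≤ 1 / 100)
    (hl0 : 0 ≤ L - fs ℓ lam) (hq : 9 / 4 * (L - fs ℓ lam) ≤ δ)
    {p : I} (hp : criticalParam d < p) {v : Fin d → ℝ} (hv : IsVelocity ℓ lam p v) :
    ∑ j, v j * ℓ j ≤ fs ℓ lam
      - (δ - 9 / 4 * (L - fs ℓ lam)) * (1 - (p : ℝ)) ^ J.card *
          (1 - 2 / δ * (L - ∑ j, v j * ℓ j))
      + 15 / 4 * (L - fs ℓ lam) * (2 * d * (1 - (p : ℝ))) := by
  classical
  have hr : 0 ≤ 1 - (p : ℝ) := by linarith [p.2.2]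
  have hA : 0 ≤ δ - 9 / 4 * (L - fs ℓ lam) := by linarith
  refine limit_gen hp hv hG.pos (C := 15 / 4 * (L - fs ℓ lam))
    (cA := δ - 9 / 4 * (L - fs ℓ lam)) (mul_nonneg hA (pow_nonneg hr _)) (by positivity) hA
    (fun n ω => (δ - 9 / 4 * (L - fs ℓ lam)) * rK ℓ lam J ω J n)
    (fun n ω => 15 / 4 * (L - fs ℓ lam) * ∑ D, frK ℓ lam ω {D} n)
    (fun n ω => rnJ ℓ lam J ω n)
    (fun n => (integrable_rK ℓ lam J p J n).const_mul _)
    (fun n => (integrable_finsetSum _ fun D _ => integrable_frK ℓ lam p {D} n).const_mul _)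
    (fun n => integrable_rnJ ℓ lam J p n)
    (fun n ω => mul_nonneg hA (rK_nonneg ℓ lam J ω J n))
    (fun n ω => mul_nonneg (mul_nonneg (by norm_num) hl0)
      (Finset.sum_nonneg fun D _ => frK_nonneg ℓ lam ω {D} n))
    (fun n ω => rnJ_nonneg ℓ lam J ω n) ?_ ?_ ?_ ?_ ?_
  · intro n ω
    exact mul_le_mul_of_nonneg_left
      ((rK_le_rnJ ℓ lam J ω J n).trans (rnJ_le_nw ℓ lam J ω n)) hA
  · intro n
    rw [integral_const_mul, integral_rK ℓ lam J hG p (Finset.Subset.refl J) n]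
    ring
  · intro n
    rw [integral_const_mul, integral_finsetSum _ fun D _ => integrable_frK ℓ lam p {D} n]
    have h1 : ∑ D : Fin d × Bool, ∫ ω, frK ℓ lam ω {D} n ∂(percolation d p) ≤
        ∑ _D : Fin d × Bool, (1 - (p : ℝ)) * ∫ ω, nw ℓ lam ω n ∂(percolation d p) := by
      refine Finset.sum_le_sum fun D _ => ?_
      have := integral_frK_le ℓ lam p (Finset.singleton_nonempty D) n
      rw [Finset.card_singleton, pow_one] at this
      exact this
    rw [Finset.sum_const, nsmul_eq_mul, Finset.card_univ, Fintype.card_prod, Fintype.card_fin,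
      Fintype.card_bool] at h1
    have h2 := mul_le_mul_of_nonneg_left h1
      (mul_nonneg (by norm_num : (0 : ℝ) ≤ 15 / 4) hl0)
    push_cast at h2
    linarith
  · intro N ω
    exact sum_rnJ_ge lam ω hG N
  · intro N ω
    exact eh_succ_leJ ω hG hlam hε hε2 hl0 hq N

/-- The annealed inequality of the second regime. -/
lemma regime2 {L δ ε : ℝ} (hG : GapJ ℓ J L δ) (hm : 2 ≤ J.card) (hlam : 0 < lam)
    (hε : Real.exp (-(lam * δ)) ≤ ε) (hε2 : 2 * d * ε ≤ 1 / 100) {M : ℝ}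
    (hM : bJ ℓ lam J L * RJ ℓ lam J L + RJ ℓ lam J L * (J.card * (Jᶜ).card) ≤ M)
    (hcoef : aJ ℓ lam J L * J.card + 6 * M + (L - fs ℓ lam) ≤ δ)
    {p : I} (hp : criticalParam d < p) {v : Fin d → ℝ} (hv : IsVelocity ℓ lam p v) :
    ∑ j, v j * ℓ j ≤ fs ℓ lam
      - aJ ℓ lam J L * (J.card * (1 - (p : ℝ))) * (1 - 2 / δ * (L - ∑ j, v j * ℓ j))
      + (bJ ℓ lam J L * (RJ ℓ lam J L * (1 - (p : ℝ)))
        + RJ ℓ lam J L * (J.card * (Jᶜ).card * (1 - (p : ℝ)) ^ 2)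
        + 57 * d * ε * M * (2 * d * (1 - (p : ℝ)))) := by
  classical
  have hr : 0 ≤ 1 - (p : ℝ) := by linarith [p.2.2]
  have hε0 : 0 < ε := lt_of_lt_of_le (Real.exp_pos _) hε
  have hW := WJ_nonneg (ℓ := ℓ) (lam := lam) (J := J) (L := L)
  have hρ : ∀ D, 0 ≤ rhoJ ℓ lam L D := rhoJ_nonneg hG
  have hR : 0 ≤ RJ ℓ lam J L := (RJ_pos hG).le
  have hm' : (2 : ℝ) ≤ J.card := by exact_mod_cast hm
  have ha : 0 ≤ aJ ℓ lam J L := by
    unfold aJ
    refine div_nonneg hR (mul_nonneg ?_ ?_) <;> linarith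
  have hb : 0 ≤ bJ ℓ lam J L := by
    unfold bJ
    refine div_nonneg zero_le_one ?_
    linarith
  have hM0 : 0 ≤ M := by
    refine le_trans ?_ hM
    positivity
  have hnw : ∀ n, 0 ≤ ∫ ω, nw ℓ lam ω n ∂(percolation d p) := fun n =>
    integral_nonneg fun ω => nw_nonneg ℓ lam ω n
  have i1 : ∀ n, Integrable (fun ω => bJ ℓ lam J L *
      ∑ D ∈ Jᶜ, rhoJ ℓ lam L D * frK ℓ lam ω {D} n) (percolation d p) := fun n =>
    (integrable_finsetSum _ fun D _ => (integrable_frK ℓ lam p {D} n).const_mul _).const_mul _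
  have i2 : ∀ n, Integrable (fun ω => RJ ℓ lam J L *
      ∑ D ∈ J, ∑ D' ∈ Jᶜ, frK ℓ lam ω {D, D'} n) (percolation d p) := fun n =>
    (integrable_finsetSum _ fun D _ => integrable_finsetSum _ fun D' _ =>
      integrable_frK ℓ lam p {D, D'} n).const_mul _
  have i3 : ∀ n, Integrable (fun ω => 57 * d * ε * M * ∑ D, frK ℓ lam ω {D} n)
      (percolation d p) := fun n =>
    (integrable_finsetSum _ fun D _ => integrable_frK ℓ lam p {D} n).const_mul _
  refine limit_gen hp hv hG.pos (C := 4 * M)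
    (cA := aJ ℓ lam J L * J.card) (by positivity) (by positivity) (by positivity)
    (fun n ω => aJ ℓ lam J L * ∑ D ∈ J, rK ℓ lam J ω {D} n)
    (fun n ω => bJ ℓ lam J L * ∑ D ∈ Jᶜ, rhoJ ℓ lam L D * frK ℓ lam ω {D} n
        + RJ ℓ lam J L * ∑ D ∈ J, ∑ D' ∈ Jᶜ, frK ℓ lam ω {D, D'} n
        + 57 * d * ε * M * ∑ D, frK ℓ lam ω {D} n)
    (fun n ω => rnJ ℓ lam J ω n)
    (fun n => (integrable_finsetSum _ fun D _ => integrable_rK ℓ lam J p {D} n).const_mul _)
    (fun n => ((i1 n).add (i2 n)).add (i3 n))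
    (fun n => integrable_rnJ ℓ lam J p n)
    (fun n ω => mul_nonneg ha (Finset.sum_nonneg fun D _ => rK_nonneg ℓ lam J ω {D} n))
    ?_ (fun n ω => rnJ_nonneg ℓ lam J ω n) ?_ ?_ ?_ ?_ ?_
  · intro n ω
    refine add_nonneg (add_nonneg ?_ ?_) ?_
    · exact mul_nonneg hb (Finset.sum_nonneg fun D _ =>
        mul_nonneg (hρ D) (frK_nonneg ℓ lam ω {D} n))
    · exact mul_nonneg hR (Finset.sum_nonneg fun D _ => Finset.sum_nonneg fun D' _ =>
        frK_nonneg ℓ lam ω {D, D'} n)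
    · exact mul_nonneg (by positivity) (Finset.sum_nonneg fun D _ =>
        frK_nonneg ℓ lam ω {D} n)
  · intro n ω
    rw [mul_assoc]
    refine mul_le_mul_of_nonneg_left ?_ ha
    refine (Finset.sum_le_sum fun D _ => (rK_le_rnJ ℓ lam J ω {D} n).trans
      (rnJ_le_nw ℓ lam J ω n)).trans (le_of_eq ?_)
    rw [Finset.sum_const, nsmul_eq_mul]
  · intro n
    rw [integral_const_mul, integral_finsetSum _ fun D _ => integrable_rK ℓ lam J p {D} n]
    have h1 : ∀ D ∈ J, ∫ ω, rK ℓ lam J ω {D} n ∂(percolation d p) =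
        (1 - (p : ℝ)) * ∫ ω, rnJ ℓ lam J ω n ∂(percolation d p) := by
      intro D hD
      have := integral_rK ℓ lam J hG p (Finset.singleton_subset_iff.2 hD) n
      rw [Finset.card_singleton, pow_one] at this
      exact this
    rw [Finset.sum_congr rfl h1, Finset.sum_const, nsmul_eq_mul]
    ring
  · intro n
    have e1 := integral_add (μ := percolation d p) ((i1 n).add (i2 n)) (i3 n)
    have e2 := integral_add (μ := percolation d p) (i1 n) (i2 n)
    simp only [Pi.add_apply] at e1 e2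
    rw [e1, e2]
    have f1 : ∀ D, ∫ ω, frK ℓ lam ω {D} n ∂(percolation d p) ≤
        (1 - (p : ℝ)) * ∫ ω, nw ℓ lam ω n ∂(percolation d p) := by
      intro D
      have := integral_frK_le ℓ lam p (Finset.singleton_nonempty D) n
      rw [Finset.card_singleton, pow_one] at this
      exact this
    have f2 : ∀ D ∈ J, ∀ D' ∈ Jᶜ, ∫ ω, frK ℓ lam ω {D, D'} n ∂(percolation d p) ≤
        (1 - (p : ℝ)) ^ 2 * ∫ ω, nw ℓ lam ω n ∂(percolation d p) := by
      intro D hD D' hD'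
      have hne : D ≠ D' := fun h => (Finset.mem_compl.1 hD') (h ▸ hD)
      have := integral_frK_le ℓ lam p (Finset.insert_nonempty D {D'}) n
      rw [Finset.card_pair hne] at this
      exact this
    have g1 : ∫ ω, bJ ℓ lam J L * ∑ D ∈ Jᶜ, rhoJ ℓ lam L D * frK ℓ lam ω {D} n
        ∂(percolation d p) ≤ bJ ℓ lam J L * (RJ ℓ lam J L * (1 - (p : ℝ))) *
          ∫ ω, nw ℓ lam ω n ∂(percolation d p) := by
      rw [integral_const_mul, integral_finsetSum _ fun D _ =>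
        (integrable_frK ℓ lam p {D} n).const_mul _, mul_assoc]
      refine mul_le_mul_of_nonneg_left ?_ hb
      have h1 : ∑ D ∈ Jᶜ, ∫ ω, rhoJ ℓ lam L D * frK ℓ lam ω {D} n ∂(percolation d p) ≤
          ∑ D ∈ Jᶜ, rhoJ ℓ lam L D * ((1 - (p : ℝ)) *
            ∫ ω, nw ℓ lam ω n ∂(percolation d p)) := by
        refine Finset.sum_le_sum fun D _ => ?_
        rw [integral_const_mul]
        exact mul_le_mul_of_nonneg_left (f1 D) (hρ D)
      rw [← Finset.sum_mul] at h1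
      have h2 : RJ ℓ lam J L = ∑ D ∈ Jᶜ, rhoJ ℓ lam L D := rfl
      rw [h2]
      linarith
    have g2 : ∫ ω, RJ ℓ lam J L * ∑ D ∈ J, ∑ D' ∈ Jᶜ, frK ℓ lam ω {D, D'} n
        ∂(percolation d p) ≤ RJ ℓ lam J L * (J.card * (Jᶜ).card * (1 - (p : ℝ)) ^ 2) *
          ∫ ω, nw ℓ lam ω n ∂(percolation d p) := by
      rw [integral_const_mul, integral_finsetSum _ fun D _ => integrable_finsetSum _ fun D' _ =>
        integrable_frK ℓ lam p {D, D'} n, mul_assoc]
      refine mul_le_mul_of_nonneg_left ?_ hR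
      have h1 : ∑ D ∈ J, ∫ ω, ∑ D' ∈ Jᶜ, frK ℓ lam ω {D, D'} n ∂(percolation d p) ≤
          ∑ D ∈ J, ∑ D' ∈ Jᶜ, (1 - (p : ℝ)) ^ 2 *
            ∫ ω, nw ℓ lam ω n ∂(percolation d p) := by
        refine Finset.sum_le_sum fun D hD => ?_
        rw [integral_finsetSum _ fun D' _ => integrable_frK ℓ lam p {D, D'} n]
        exact Finset.sum_le_sum fun D' hD' => f2 D hD D' hD'
      simp only [Finset.sum_const, nsmul_eq_mul] at h1
      linarith
    have g3 : ∫ ω, 57 * d * ε * M * ∑ D, frK ℓ lam ω {D} n ∂(percolation d p) ≤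
        57 * d * ε * M * (2 * d * (1 - (p : ℝ))) *
          ∫ ω, nw ℓ lam ω n ∂(percolation d p) := by
      rw [integral_const_mul, integral_finsetSum _ fun D _ => integrable_frK ℓ lam p {D} n]
      have h1 : ∑ D : Fin d × Bool, ∫ ω, frK ℓ lam ω {D} n ∂(percolation d p) ≤
          ∑ _D : Fin d × Bool, (1 - (p : ℝ)) * ∫ ω, nw ℓ lam ω n ∂(percolation d p) :=
        Finset.sum_le_sum fun D _ => f1 D
      rw [Finset.sum_const, nsmul_eq_mul, Finset.card_univ, Fintype.card_prod,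
        Fintype.card_fin, Fintype.card_bool] at h1
      have h2 := mul_le_mul_of_nonneg_left h1 (by positivity : 0 ≤ 57 * d * ε * M)
      push_cast at h2
      linarith
    linarith
  · intro N ω
    exact sum_rnJ_ge lam ω hG N
  · intro N ω
    exact eh_succ_le2 ω hG hm hlam hε hε2 hM hcoef N

/-- The common estimates. -/
lemma basics {L δ ε : ℝ} (hd : 2 ≤ d) (hG : GapJ ℓ J L δ) (hm : 2 ≤ J.card) (hlam : 0 < lam)
    (h1 : 1 ≤ lam * δ) (hε : Real.exp (-(lam * δ)) ≤ ε) :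
    0 < ε ∧ 0 < RJ ℓ lam J L ∧ RJ ℓ lam J L ≤ 2 * d * ε * δ ∧ 0 ≤ WJ ℓ lam J L ∧
    WJ ℓ lam J L ≤ 2 * d * ε ∧ (2 : ℝ) ≤ J.card ∧ (J.card : ℝ) ≤ 2 * d ∧
    ((Jᶜ).card : ℝ) ≤ 2 * d ∧ L - fs ℓ lam = RJ ℓ lam J L / (J.card + WJ ℓ lam J L) ∧
    0 ≤ L - fs ℓ lam ∧ L - fs ℓ lam ≤ RJ ℓ lam J L / 2 := by
  have hR := RJ_pos (lam := lam) hG
  have hW := WJ_nonneg (ℓ := ℓ) (lam := lam) (J := J) (L := L)
  have hm' : (2 : ℝ) ≤ J.card := by exact_mod_cast hm
  have hcard : ∀ K : Finset (Fin d × Bool), (K.card : ℝ) ≤ 2 * d := by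
    intro K
    have h4 : K.card ≤ (Finset.univ : Finset (Fin d × Bool)).card :=
      Finset.card_le_card (Finset.subset_univ _)
    have h5 : (Finset.univ : Finset (Fin d × Bool)).card = d * 2 := by
      simp [Finset.card_univ]
    have : (K.card : ℝ) ≤ ((d * 2 : ℕ) : ℝ) := by
      rw [← h5]; exact_mod_cast h4
    push_cast at this
    linarith
  have hfs : L - fs ℓ lam = RJ ℓ lam J L / (J.card + WJ ℓ lam J L) := by
    rw [fs_eq hG]
    ring
  refine ⟨lt_of_lt_of_le (Real.exp_pos _) hε, hR, RJ_le hG h1 hε, hW, WJ_le hG hlam hε, hm',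
    hcard J, hcard _, hfs, ?_, ?_⟩
  · rw [hfs]
    exact div_nonneg hR.le (by linarith)
  · rw [hfs]
    exact div_le_div_of_nonneg_left hR.le (by norm_num) (by linarith)

/-- The second regime in explicit form. -/
lemma concl2 {L δ ε : ℝ} (hd : 2 ≤ d) (hG : GapJ ℓ J L δ) (hm : 2 ≤ J.card) (hlam : 0 < lam)
    (h1 : 1 ≤ lam * δ) (hε : Real.exp (-(lam * δ)) ≤ ε) (hε3 : 30000 * (d : ℝ) ^ 6 * ε ≤ 1)
    {p : I} (hp : criticalParam d < p) {v : Fin d → ℝ} (hv : IsVelocity ℓ lam p v)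
    (hr0 : 192 * (d : ℝ) ^ 4 * (1 - (p : ℝ)) ≤ 1) :
    ∑ j, v j * ℓ j ≤ fs ℓ lam - RJ ℓ lam J L / (24 * (d : ℝ) ^ 2) * (1 - (p : ℝ)) := by
  obtain ⟨hε0, hR, hRle, hW0, hW, hm2, hmd, hmc, hfs, hq0, hq2⟩ := basics hd hG hm hlam h1 hε
  have hδ := hG.pos
  have hD2 : (2 : ℝ) ≤ d := by exact_mod_cast hd
  have hp0 : 0 ≤ 1 - (p : ℝ) := by linarith [p.2.2]
  have hp1 : 1 - (p : ℝ) ≤ 1 := by linarith [p.2.1]
  set R := RJ ℓ lam J L with hRdef
  set W := WJ ℓ lam J L with hWdef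
  set m : ℝ := (J.card : ℝ) with hmdef
  set mc : ℝ := ((Jᶜ).card : ℝ) with hmcdef
  set D : ℝ := (d : ℝ) with hDdef
  set r : ℝ := 1 - (p : ℝ) with hr
  set q := L - fs ℓ lam with hqdef
  have hmc0 : 0 ≤ mc := by rw [hmcdef]; positivity
  have hD0 : 0 < D := by linarith
  have hDpow : ∀ k : ℕ, k ≤ 6 → D ^ k * ε ≤ D ^ 6 * ε := fun k hk =>
    mul_le_mul_of_nonneg_right (pow_le_pow_right₀ (by linarith) hk) hε0.le
  have he6 : D ^ 6 * ε ≤ 1 / 30000 := by linarith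
  have he1 : D * ε ≤ 1 / 30000 := by
    have := hDpow 1 (by norm_num)
    rw [pow_one] at this
    linarith
  have he2 : D ^ 2 * ε ≤ 1 / 30000 := (hDpow 2 (by norm_num)).trans he6
  have he3 : D ^ 3 * ε ≤ 1 / 30000 := (hDpow 3 (by norm_num)).trans he6
  have hε2 : 2 * D * ε ≤ 1 / 100 := by linarith
  have hW1 : W ≤ 1 := by linarith
  have hDD : 4 ≤ D ^ 2 := by nlinarith
  have hb : bJ ℓ lam J L = 1 / (m + W) := rfl
  have ha : aJ ℓ lam J L = R / ((m + W) * (m - 1 + W)) := rfl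
  have hmW : 2 ≤ m + W := by linarith
  have hmW1 : 1 ≤ m - 1 + W := by linarith
  have hb2 : 1 / (m + W) ≤ 1 / 2 := one_div_le_one_div_of_le (by norm_num) hmW
  have hmmc : m * mc ≤ 4 * D ^ 2 := by
    have : m * mc ≤ (2 * D) * (2 * D) := mul_le_mul hmd hmc hmc0 (by linarith)
    nlinarith
  have hRD : R ≤ D ^ 2 * R := by nlinarith
  -- the constant `M`
  have hM : bJ ℓ lam J L * R + R * (m * mc) ≤ 5 * D ^ 2 * R := by
    rw [hb]
    have h2 := mul_le_mul_of_nonneg_right hb2 hR.le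
    have h3 := mul_le_mul_of_nonneg_left hmmc hR.le
    linarith
  have hdenpos : 0 < (m + W) * (m - 1 + W) := mul_pos (by linarith) (by linarith)
  have ham : aJ ℓ lam J L * m ≤ R := by
    rw [ha, div_mul_eq_mul_div, div_le_iff₀ hdenpos]
    refine mul_le_mul_of_nonneg_left ?_ hR.le
    nlinarith
  have hcoef : aJ ℓ lam J L * m + 6 * (5 * D ^ 2 * R) + q ≤ δ := by
    have h2 : D ^ 2 * R ≤ D ^ 2 * (2 * D * ε * δ) :=
      mul_le_mul_of_nonneg_left hRle (by positivity)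
    have h3 : D ^ 2 * (2 * D * ε * δ) = (D ^ 3 * ε) * (2 * δ) := by ring
    have h4 : (D ^ 3 * ε) * (2 * δ) ≤ 1 / 30000 * (2 * δ) :=
      mul_le_mul_of_nonneg_right he3 (by linarith)
    linarith
  have h := regime2 hG hm hlam hε hε2 (M := 5 * D ^ 2 * R) hM hcoef hp hv
  set V := ∑ j, v j * ℓ j with hV
  by_contra hcon
  push Not at hcon
  set t := R / (24 * D ^ 2) with ht
  have htR : R = 24 * D ^ 2 * t := by
    rw [ht]; field_simp
  have ht0 : 0 < t := by rw [ht]; positivity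
  have ht1 : t ≤ R / 24 := by
    rw [htR]
    have : 1 * t ≤ D ^ 2 * t := mul_le_mul_of_nonneg_right (by linarith) ht0.le
    linarith
  have hy : L - V ≤ R := by
    have h2 : t * r ≤ t := mul_le_of_le_one_right ht0.le hp1
    linarith
  have hy2 : 2 / δ * (L - V) ≤ 4 * D * ε := by
    have h2 : 2 / δ * (L - V) ≤ 2 / δ * (2 * D * ε * δ) :=
      mul_le_mul_of_nonneg_left (hy.trans hRle) (by positivity)
    have h3 : 2 / δ * (2 * D * ε * δ) = 4 * D * ε := by field_simp; ring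
    linarith
  -- the main term
  have hmain : 2 * t + 1 / (m + W) * R ≤ aJ ℓ lam J L * m * (1 - 4 * D * ε) := by
    have e1 : aJ ℓ lam J L * m * (1 - 4 * D * ε) - 1 / (m + W) * R =
        R * (1 - W - 4 * D * ε * m) / ((m + W) * (m - 1 + W)) := by
      rw [ha]
      have n1 : m + W ≠ 0 := by linarith
      have n2 : m - 1 + W ≠ 0 := by linarith
      field_simp
      ring
    have e2 : 1 / 2 ≤ 1 - W - 4 * D * ε * m := by
      have h2 : 4 * D * ε * m ≤ 4 * D * ε * (2 * D) :=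
        mul_le_mul_of_nonneg_left hmd (by positivity)
      have h3 : 4 * D * ε * (2 * D) = 8 * (D ^ 2 * ε) := by ring
      linarith
    have e3 : (m + W) * (m - 1 + W) ≤ 6 * D ^ 2 := by
      have h2 : (m + W) * (m - 1 + W) ≤ (2 * D + 1) * (2 * D) :=
        mul_le_mul (by linarith) (by linarith) (by linarith) (by linarith)
      nlinarith
    have e4 : 2 * t ≤ R * (1 - W - 4 * D * ε * m) / ((m + W) * (m - 1 + W)) := by
      rw [le_div_iff₀ hdenpos]
      have h2 : 2 * t * ((m + W) * (m - 1 + W)) ≤ 2 * t * (6 * D ^ 2) :=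
        mul_le_mul_of_nonneg_left e3 (by linarith)
      have h3 : R * (1 / 2) ≤ R * (1 - W - 4 * D * ε * m) :=
        mul_le_mul_of_nonneg_left e2 hR.le
      have h4 : 2 * t * (6 * D ^ 2) = R * (1 / 2) := by
        rw [htR]; ring
      linarith
    linarith
  have hmain2 : (2 * t + 1 / (m + W) * R) * r ≤
      aJ ℓ lam J L * (m * r) * (1 - 2 / δ * (L - V)) := by
    have h2 := mul_le_mul_of_nonneg_right hmain hp0
    have ha0 : 0 ≤ aJ ℓ lam J L := by
      rw [ha]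
      exact div_nonneg hR.le hdenpos.le
    have h3 : aJ ℓ lam J L * (m * r) * (1 - 4 * D * ε) ≤
        aJ ℓ lam J L * (m * r) * (1 - 2 / δ * (L - V)) :=
      mul_le_mul_of_nonneg_left (by linarith)
        (mul_nonneg ha0 (mul_nonneg (by linarith) hp0))
    linarith
  -- the errors
  have herr1 : R * (m * mc * r ^ 2) ≤ t / 2 * r := by
    have h2 : m * mc * r ^ 2 ≤ 4 * D ^ 2 * r ^ 2 :=
      mul_le_mul_of_nonneg_right hmmc (by positivity)
    have h3 := mul_le_mul_of_nonneg_left h2 hR.le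
    have h4 : R * (4 * D ^ 2 * r ^ 2) = (192 * D ^ 4 * r) * (t / 2 * r) := by
      rw [htR]; ring
    have h5 : (192 * D ^ 4 * r) * (t / 2 * r) ≤ 1 * (t / 2 * r) :=
      mul_le_mul_of_nonneg_right hr0 (by positivity)
    linarith
  have herr2 : 57 * D * ε * (5 * D ^ 2 * R) * (2 * D * r) ≤ t / 2 * r := by
    have h4 : 57 * D * ε * (5 * D ^ 2 * R) * (2 * D * r) =
        (27360 * (D ^ 6 * ε)) * (t / 2 * r) := by
      rw [htR]; ring
    rw [h4]
    have h5 : (27360 * (D ^ 6 * ε)) * (t / 2 * r) ≤ 1 * (t / 2 * r) :=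
      mul_le_mul_of_nonneg_right (by linarith) (by positivity)
    linarith
  have h6 : bJ ℓ lam J L * (R * r) = 1 / (m + W) * R * r := by rw [hb]; ring
  rw [h6] at h
  linarith

/-- The first regime in explicit form. -/
lemma concl1 {L δ ε r₀ : ℝ} (hd : 2 ≤ d) (hG : GapJ ℓ J L δ) (hm : 2 ≤ J.card) (hlam : 0 < lam)
    (h1 : 1 ≤ lam * δ) (hε : Real.exp (-(lam * δ)) ≤ ε) (hr1 : 0 < r₀) (hr2 : r₀ ≤ 1)
    (hε3 : 30000 * (d : ℝ) ^ 6 * ε ≤ r₀ ^ (2 * d))
    {p : I} (hp : criticalParam d < p) {v : Fin d → ℝ} (hv : IsVelocity ℓ lam p v)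
    (hr0 : r₀ ≤ 1 - (p : ℝ)) :
    ∑ j, v j * ℓ j ≤ fs ℓ lam - RJ ℓ lam J L / (24 * (d : ℝ) ^ 2) * (1 - (p : ℝ)) := by
  obtain ⟨hε0, hR, hRle, hW0, hW, hm2, hmd, hmc, hfs, hq0, hq2⟩ := basics hd hG hm hlam h1 hε
  have hδ := hG.pos
  have hD2 : (2 : ℝ) ≤ d := by exact_mod_cast hd
  have hp0 : 0 ≤ 1 - (p : ℝ) := by linarith [p.2.2]
  have hp1 : 1 - (p : ℝ) ≤ 1 := by linarith [p.2.1]
  have hmd' : J.card ≤ 2 * d := by exact_mod_cast hmd
  set R := RJ ℓ lam J L with hRdef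
  set D : ℝ := (d : ℝ) with hDdef
  set r : ℝ := 1 - (p : ℝ) with hr
  set q := L - fs ℓ lam with hqdef
  set ρ := r₀ ^ (2 * d) with hρ
  have hρ0 : 0 < ρ := pow_pos hr1 _
  have hρ1 : ρ ≤ 1 := pow_le_one₀ hr1.le hr2
  have hD0 : 0 < D := by linarith
  have hDpow : ∀ k : ℕ, k ≤ 6 → D ^ k * ε ≤ D ^ 6 * ε := fun k hk =>
    mul_le_mul_of_nonneg_right (pow_le_pow_right₀ (by linarith) hk) hε0.le
  have he6 : D ^ 6 * ε ≤ ρ / 30000 := by linarith
  have he1 : D * ε ≤ ρ / 30000 := by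
    have := hDpow 1 (by norm_num)
    rw [pow_one] at this
    linarith
  have he2 : D ^ 2 * ε ≤ ρ / 30000 := (hDpow 2 (by norm_num)).trans he6
  have hε2 : 2 * D * ε ≤ 1 / 100 := by linarith
  have hRδ : R ≤ δ * ρ / 15000 := by
    have h2 : 2 * D * ε * δ = (D * ε) * (2 * δ) := by ring
    have h3 : (D * ε) * (2 * δ) ≤ ρ / 30000 * (2 * δ) :=
      mul_le_mul_of_nonneg_right he1 (by linarith)
    linarith
  have hδρ : δ * ρ ≤ δ := mul_le_of_le_one_right hδ.le hρ1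
  have hq : 9 / 4 * q ≤ δ := by linarith
  have h := regime1 hG hlam hε hε2 hq0 hq hp hv
  set V := ∑ j, v j * ℓ j with hV
  by_contra hcon
  push Not at hcon
  set t := R / (24 * D ^ 2) with ht
  have hDD : 4 ≤ D ^ 2 := by nlinarith
  have htR : R = 24 * D ^ 2 * t := by
    rw [ht]; field_simp
  have ht0 : 0 < t := by rw [ht]; positivity
  have ht1 : t ≤ R / 24 := by
    rw [htR]
    have : 1 * t ≤ D ^ 2 * t := mul_le_mul_of_nonneg_right (by linarith) ht0.le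
    linarith
  have hy : L - V ≤ R := by
    have h2 : t * r ≤ t := mul_le_of_le_one_right ht0.le hp1
    linarith
  have hy2 : 2 / δ * (L - V) ≤ 4 * D * ε := by
    have h2 : 2 / δ * (L - V) ≤ 2 / δ * (2 * D * ε * δ) :=
      mul_le_mul_of_nonneg_left (hy.trans hRle) (by positivity)
    have h3 : 2 / δ * (2 * D * ε * δ) = 4 * D * ε := by field_simp; ring
    linarith
  have hpow : ρ * r ≤ r ^ J.card := by
    have h2 : r ^ J.card = r ^ (J.card - 1) * r := by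
      rw [← pow_succ]
      congr 1
      omega
    rw [h2]
    refine mul_le_mul_of_nonneg_right ?_ hp0
    calc ρ ≤ r₀ ^ (J.card - 1) := pow_le_pow_of_le_one hr1.le hr2 (by omega)
      _ ≤ r ^ (J.card - 1) := pow_le_pow_left₀ hr1.le hr0 _
  have hA1 : 3 / 4 * δ ≤ δ - 9 / 4 * q := by linarith
  have hA2 : (3 / 4 : ℝ) ≤ 1 - 2 / δ * (L - V) := by linarith
  have hA3 : 3 / 4 * δ * (ρ * r) ≤ (δ - 9 / 4 * q) * r ^ J.card :=
    mul_le_mul hA1 hpow (by positivity) (by linarith)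
  have hA4 : 3 / 4 * δ * (ρ * r) * (3 / 4) ≤
      (δ - 9 / 4 * q) * r ^ J.card * (1 - 2 / δ * (L - V)) :=
    mul_le_mul hA3 hA2 (by norm_num) (by
      have : 0 ≤ 3 / 4 * δ * (ρ * r) := by positivity
      linarith)
  have hB : 15 / 4 * q * (2 * D * r) ≤ δ * ρ / 1000 * r := by
    have h2 : q ≤ D * ε * δ := by linarith
    have h3 : 15 / 4 * q * (2 * D) ≤ 15 / 4 * (D * ε * δ) * (2 * D) :=
      mul_le_mul_of_nonneg_right (by linarith) (by positivity)
    have h4 : 15 / 4 * (D * ε * δ) * (2 * D) = (D ^ 2 * ε) * (15 / 2 * δ) := by ring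
    have h5 : (D ^ 2 * ε) * (15 / 2 * δ) ≤ ρ / 30000 * (15 / 2 * δ) :=
      mul_le_mul_of_nonneg_right he2 (by positivity)
    have h6 : 15 / 4 * q * (2 * D) ≤ δ * ρ / 1000 := by
      have : 0 ≤ δ * ρ := by positivity
      linarith
    have h7 := mul_le_mul_of_nonneg_right h6 hp0
    linarith
  have hC : t * r ≤ δ * ρ / 1000 * r := by
    refine mul_le_mul_of_nonneg_right ?_ hp0
    have : 0 ≤ δ * ρ := by positivity
    linarith
  have hD' : 0 ≤ δ * ρ * r := by positivity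
  linarith

end Pool.Agent.P2ec0h
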