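import Pool.Agent.Lib.P2ec0h.ArmJ

/-!
# Fresh closed edges and records
-/

open MeasureTheory ProbabilityTheory Filter Topology Function
open scoped unitInterval ENNReal

namespace Pool.Agent.P2ec0h

open Pool.Agent.P2ec0f3 Pool.Agent.P2ec0g

variable {d : ℕ} (ℓ : Fin d → ℝ) (lam : ℝ) (J : Finset (Fin d × Bool)) (ω : Set (Edge d))

/-- The indicator that the edges from `z` in the directions of `K` are closed. -/
noncomputable def prK (K : Finset (Fin d × Bool)) (z : Vtx d) (ω : Set (Edge d)) : ℝ :=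
  ∏ D ∈ K, cl (edgeTo z D) ω

lemma prK_nonneg (K : Finset (Fin d × Bool)) (z : Vtx d) : 0 ≤ prK K z ω :=
  Finset.prod_nonneg fun _ _ => cl_nonneg ..

lemma prK_le_one (K : Finset (Fin d × Bool)) (z : Vtx d) : prK K z ω ≤ 1 :=
  Finset.prod_le_one (fun _ _ => cl_nonneg ..) fun _ _ => cl_le_one ..

variable {ω} in
lemma prK_of_closed {K : Finset (Fin d × Bool)} {z : Vtx d}
    (h : ∀ D ∈ K, edgeTo z D ∉ ω) : prK K z ω = 1 := by
  classical
  unfold prK
  refine Finset.prod_eq_one fun D hD => ?_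
  unfold cl
  rw [if_neg (h D hD)]

variable {ω} in
lemma prK_of_not_closed {K : Finset (Fin d × Bool)} {z : Vtx d}
    (h : ¬ ∀ D ∈ K, edgeTo z D ∉ ω) : prK K z ω = 0 := by
  classical
  push Not at h
  obtain ⟨D, hD, ho⟩ := h
  unfold prK
  refine Finset.prod_eq_zero hD ?_
  unfold cl
  rw [if_pos ho]

lemma sum_rq_prK (q : Vtx d → Vtx d → Prop) (K : Finset (Fin d × Bool)) (n : ℕ) :
    ∑ z ∈ box d (n + 1), rq ℓ lam ω (q z) (n + 1) z * prK K z ω =
      (quenched ℓ lam ω).real {X | ∀ m < n + 1, q (X (n + 1)) (X m) ∧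
        ∀ D ∈ K, edgeTo (X (n + 1)) D ∉ ω} := by
  rw [← sum_rq ℓ lam ω (fun z x => q z x ∧ ∀ D ∈ K, edgeTo z D ∉ ω) (n + 1)]
  refine Finset.sum_congr rfl fun z _ => ?_
  by_cases hc : ∀ D ∈ K, edgeTo z D ∉ ω
  · rw [prK_of_closed hc, mul_one]
    congr 1
    funext x
    exact propext ⟨fun h => ⟨h, hc⟩, fun h => h.1⟩
  · rw [prK_of_not_closed hc, mul_zero, rq_eq]
    have : {X : ℕ → Vtx d | ∀ m < n + 1, q z (X m) ∧ ∀ D ∈ K, edgeTo z D ∉ ω} = ∅ := by
      ext X
      simp only [Set.mem_ofPred_eq, Set.mem_empty_iff_false, iff_false]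
      intro h
      exact hc (h 0 (Nat.succ_pos n)).2
    rw [this]
    simp

/-- The probability that the edges from `X_{n+1}` in the directions of `K` are closed and seen
for the first time. -/
noncomputable def frK (K : Finset (Fin d × Bool)) (n : ℕ) : ℝ :=
  ∑ z ∈ box d (n + 1), rq ℓ lam ω (fun x => ∀ D ∈ K, Away (edgeTo z D) x) (n + 1) z * prK K z ω

/-- The probability of a record of the height at time `n + 1`. -/
noncomputable def rnJ (n : ℕ) : ℝ :=
  ∑ z ∈ box d (n + 1), rq ℓ lam ω (fun x => hJ J x < hJ J z) (n + 1) z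

/-- The probability of a record with the edges in the directions of `K` closed. -/
noncomputable def rK (K : Finset (Fin d × Bool)) (n : ℕ) : ℝ :=
  ∑ z ∈ box d (n + 1), rq ℓ lam ω (fun x => hJ J x < hJ J z) (n + 1) z * prK K z ω

/-- The probability of an unblocked vertex with closed edges in the directions of `K`. -/
noncomputable def kK (K : Finset (Fin d × Bool)) (n : ℕ) : ℝ :=
  (lawAt ℓ lam ω n).real {x | ¬ Blk J ω x ∧ ∀ D ∈ K, edgeTo x D ∉ ω}

lemma frK_nonneg (K : Finset (Fin d × Bool)) (n : ℕ) : 0 ≤ frK ℓ lam ω K n :=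
  Finset.sum_nonneg fun _ _ => mul_nonneg (rq_nonneg ..) (prK_nonneg ..)

lemma rnJ_nonneg (n : ℕ) : 0 ≤ rnJ ℓ lam J ω n := Finset.sum_nonneg fun _ _ => rq_nonneg ..

lemma rK_nonneg (K : Finset (Fin d × Bool)) (n : ℕ) : 0 ≤ rK ℓ lam J ω K n :=
  Finset.sum_nonneg fun _ _ => mul_nonneg (rq_nonneg ..) (prK_nonneg ..)

lemma kK_nonneg (K : Finset (Fin d × Bool)) (n : ℕ) : 0 ≤ kK ℓ lam J ω K n :=
  measureReal_nonneg

lemma kK_le_one (K : Finset (Fin d × Bool)) (n : ℕ) : kK ℓ lam J ω K n ≤ 1 :=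
  measureReal_le_one

lemma rnJ_eq (n : ℕ) : rnJ ℓ lam J ω n =
    (quenched ℓ lam ω).real {X | ∀ m < n + 1, hJ J (X m) < hJ J (X (n + 1))} :=
  sum_rq ℓ lam ω (fun z x => hJ J x < hJ J z) (n + 1)

lemma rnJ_le_nw (n : ℕ) : rnJ ℓ lam J ω n ≤ nw ℓ lam ω n := by
  rw [rnJ_eq, nw_eq]
  refine measureReal_mono fun X hX m hm h => ?_
  have := hX m hm
  rw [h] at this
  exact absurd this (lt_irrefl _)

lemma rK_le_rnJ (K : Finset (Fin d × Bool)) (n : ℕ) : rK ℓ lam J ω K n ≤ rnJ ℓ lam J ω n :=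
  Finset.sum_le_sum fun _ _ => mul_le_of_le_one_right (rq_nonneg ..) (prK_le_one ..)

lemma lawAt_real (n : ℕ) (s : Set (Vtx d)) :
    (lawAt ℓ lam ω n).real s = (quenched ℓ lam ω).real {X | X n ∈ s} := by
  unfold lawAt
  rw [measureReal_def, measureReal_def,
    Measure.map_apply (measurable_pi_apply n) MeasurableSet.of_discrete]
  rfl

/-- The records with blocked vertex are visits to blocked vertices. -/
lemma rK_le_BJ (n : ℕ) : rK ℓ lam J ω J n ≤ BJ ℓ lam J ω (n + 1) := by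
  unfold rK BJ
  rw [sum_rq_prK ℓ lam ω (fun z x => hJ J x < hJ J z) J n, lawAt_real]
  exact measureReal_mono fun X hX => (hX 0 (Nat.succ_pos n)).2

/-- The records with closed edge in direction `D`. -/
lemma rK_le_kK (D : Fin d × Bool) (n : ℕ) :
    rK ℓ lam J ω {D} n ≤ kK ℓ lam J ω {D} (n + 1) + BJ ℓ lam J ω (n + 1) := by
  unfold rK kK BJ
  rw [sum_rq_prK ℓ lam ω (fun z x => hJ J x < hJ J z) {D} n, lawAt_real, lawAt_real]
  refine le_trans (measureReal_mono fun X hX => ?_) (measureReal_union_le _ _)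
  have h := (hX 0 (Nat.succ_pos n)).2
  by_cases hB : Blk J ω (X (n + 1))
  · right; exact hB
  · left; exact ⟨hB, h⟩

variable {J} in
/-- Closed edges which are seen are fresh or below the armed height. -/
lemma kK_le_frK {L δ : ℝ} (hG : GapJ ℓ J L δ) (K : Finset (Fin d × Bool)) (n : ℕ) :
    kK ℓ lam J ω K (n + 1) ≤ frK ℓ lam ω K n + ZJ ℓ lam J ω (n + 1) := by
  unfold kK frK ZJ
  rw [sum_rq_prK ℓ lam ω (fun z x => ∀ D ∈ K, Away (edgeTo z D) x) K n, lawAt_real]
  refine le_trans ?_ (measureReal_union_le _ _)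
  rw [measureReal_def, measureReal_def]
  refine ENNReal.toReal_mono (measure_ne_top _ _) (measure_mono_ae ?_)
  filter_upwards [ae_good ℓ lam ω, ae_step ℓ lam ω] with X hX hs
  intro h
  obtain ⟨hB, hc⟩ : ¬ Blk J ω (X (n + 1)) ∧ ∀ D ∈ K, edgeTo (X (n + 1)) D ∉ ω := h
  by_cases ha : ∀ m < n + 1, ∀ D ∈ K, Away (edgeTo (X (n + 1)) D) (X m)
  · left
    exact fun m hm => ⟨ha m hm, hc⟩
  · right
    push Not at ha
    obtain ⟨m, hm, D, hD, h1⟩ := ha
    unfold Away at h1
    push Not at h1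
    obtain ⟨D', hD'⟩ := h1
    have h2 := le_ar_of_seen ω hG hX.1 (fun k => by
      rcases hs k with h3 | ⟨D'', h3, h4⟩
      · exact Or.inl h3
      · exact Or.inr ⟨D'', h3, h4⟩) hm (hc D hD) hD'
    refine ⟨hB, le_trans ?_ h2⟩
    unfold topJ
    exact le_max_left _ _

variable {J} in
/-- The changes of the alarm height are bounded by the fresh closed edges. -/
lemma CJ_le {L δ : ℝ} (hG : GapJ ℓ J L δ) (n : ℕ) :
    CJ ℓ lam J ω n ≤ ∑ D, frK ℓ lam ω {D} n := by
  unfold CJ frK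
  have h0 : ∀ D ∈ (Finset.univ : Finset (Fin d × Bool)),
      ∑ z ∈ box d (n + 1), rq ℓ lam ω (fun x => ∀ D' ∈ ({D} : Finset (Fin d × Bool)),
        Away (edgeTo z D') x) (n + 1) z * prK {D} z ω =
      (quenched ℓ lam ω).real {X | ∀ m < n + 1, (∀ D' ∈ ({D} : Finset (Fin d × Bool)),
        Away (edgeTo (X (n + 1)) D') (X m)) ∧
        ∀ D' ∈ ({D} : Finset (Fin d × Bool)), edgeTo (X (n + 1)) D' ∉ ω} := fun D _ =>
    sum_rq_prK ℓ lam ω (fun z x => ∀ D' ∈ ({D} : Finset (Fin d × Bool)),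
      Away (edgeTo z D') x) {D} n
  rw [Finset.sum_congr rfl h0]
  refine le_trans ?_ (measureReal_biUnion_finset_le _ _)
  rw [measureReal_def, measureReal_def]
  refine ENNReal.toReal_mono (measure_ne_top _ _) (measure_mono_ae ?_)
  filter_upwards [ae_good ℓ lam ω] with X hX
  intro h
  obtain ⟨D, hD1, hD2⟩ := exists_freshJ ω hG hX.1 h
  refine Set.mem_iUnion₂.2 ⟨D, Finset.mem_univ D, fun m hm => ⟨?_, ?_⟩⟩
  · intro D' hD'
    rw [Finset.mem_singleton.1 hD']
    exact hD2 m hm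
  · intro D' hD'
    rw [Finset.mem_singleton.1 hD']
    exact hD1

/-! ### Annealed estimates -/

lemma edgeTo_injective (z : Vtx d) {D D' : Fin d × Bool} (h : edgeTo z D = edgeTo z D') :
    D = D' := by
  rcases edgeTo_eq h with ⟨-, h1⟩ | ⟨h1, -⟩
  · exact (nbr_injective z h1).symm
  · exfalso
    obtain ⟨i, b⟩ := D
    have h2 := congrFun h1 i
    cases b
    · simp [nbr, basisVec] at h2
      omega
    · simp [nbr, basisVec] at h2

open Classical in
lemma depOn_mul_prK {T : Finset (Edge d)} {f : Set (Edge d) → ℝ} (hf : DepOn T f)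
    (K : Finset (Fin d × Bool)) (z : Vtx d) :
    DepOn (T ∪ K.image (edgeTo z)) (fun ω => f ω * prK K z ω) := by
  intro ω ω' h
  have h1 := hf ω ω' fun e he => h e (Finset.mem_union_left _ he)
  simp only
  rw [h1]
  congr 1
  unfold prK
  refine Finset.prod_congr rfl fun D hD => ?_
  refine cl_depOn (edgeTo z D) ω ω' fun e he => h e (Finset.mem_union_right _ ?_)
  rw [Finset.mem_singleton.1 he]
  exact Finset.mem_image_of_mem _ hD

/-- Fresh edges are closed with probability `1 - p`, independently of the past. -/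
lemma integral_freshK (p : I) {T : Finset (Edge d)} {f : Set (Edge d) → ℝ} (hf : DepOn T f)
    (K : Finset (Fin d × Bool)) (z : Vtx d) (hK : ∀ D ∈ K, edgeTo z D ∉ T) :
    ∫ ω, f ω * prK K z ω ∂(percolation d p) =
      (1 - (p : ℝ)) ^ K.card * ∫ ω, f ω ∂(percolation d p) := by
  classical
  induction K using Finset.induction_on with
  | empty => simp [prK]
  | insert D K hD ih =>
    have h1 : ∀ ω : Set (Edge d), f ω * prK (insert D K) z ω =
        (f ω * prK K z ω) * cl (edgeTo z D) ω := by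
      intro ω
      unfold prK
      rw [Finset.prod_insert hD]
      ring
    simp_rw [h1]
    have h2 : edgeTo z D ∉ T ∪ K.image (edgeTo z) := by
      rw [Finset.mem_union, not_or]
      refine ⟨hK D (Finset.mem_insert_self _ _), ?_⟩
      intro h
      obtain ⟨D', hD', h3⟩ := Finset.mem_image.1 h
      rw [edgeTo_injective z h3] at hD'
      exact hD hD'
    have h4 := integral_fresh p h2 (depOn_mul_prK hf K z)
    rw [h4, ih fun D' hD' => hK D' (Finset.mem_insert_of_mem hD'),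
      Finset.card_insert_of_notMem hD, pow_succ]
    ring

lemma integrable_rq_prK (p : I) (q : Vtx d → Prop) (n : ℕ) (z : Vtx d)
    (K : Finset (Fin d × Bool)) :
    Integrable (fun ω => rq ℓ lam ω q n z * prK K z ω) (percolation d p) := by
  classical
  exact (depOn_mul_prK (rq_depOn ℓ lam q n z) K z).integrable _

lemma integrable_frK (p : I) (K : Finset (Fin d × Bool)) (n : ℕ) :
    Integrable (fun ω => frK ℓ lam ω K n) (percolation d p) :=
  integrable_finsetSum _ fun z _ => integrable_rq_prK ℓ lam p _ _ z K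

lemma integrable_rK (p : I) (K : Finset (Fin d × Bool)) (n : ℕ) :
    Integrable (fun ω => rK ℓ lam J ω K n) (percolation d p) :=
  integrable_finsetSum _ fun z _ => integrable_rq_prK ℓ lam p _ _ z K

lemma integrable_rnJ (p : I) (n : ℕ) :
    Integrable (fun ω => rnJ ℓ lam J ω n) (percolation d p) :=
  integrable_finsetSum _ fun z _ => integrable_rq p _ _ z

/-- Records have closed edges with probability `1 - p`, independently. -/
lemma integral_rK {L δ : ℝ} (hG : GapJ ℓ J L δ) (p : I) {K : Finset (Fin d × Bool)}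
    (hK : K ⊆ J) (n : ℕ) :
    ∫ ω, rK ℓ lam J ω K n ∂(percolation d p) =
      (1 - (p : ℝ)) ^ K.card * ∫ ω, rnJ ℓ lam J ω n ∂(percolation d p) := by
  unfold rK rnJ
  rw [integral_finsetSum _ fun z _ => integrable_rq_prK ℓ lam p _ _ z K,
    integral_finsetSum _ fun z _ => integrable_rq p _ _ z, Finset.mul_sum]
  refine Finset.sum_congr rfl fun z _ => ?_
  refine integral_freshK p (rq_depOn ℓ lam _ (n + 1) z) K z fun D hD h => ?_
  obtain ⟨x, D', hx, hD'⟩ := mem_tq h
  have h1 := topJ_eq J hD'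
  have h2 : topJ J z D = hJ J z + 1 := by
    unfold topJ
    rw [hJ_nbr, dJ_mem hG (hK hD)]
    omega
  have h3 : topJ J x D' ≤ hJ J x + 1 := by
    unfold topJ
    rw [hJ_nbr]
    have := dJ_le_one hG D'
    omega
  omega

/-- The expected number of fresh closed edges. -/
lemma integral_frK_le (p : I) {K : Finset (Fin d × Bool)} (hK : K.Nonempty) (n : ℕ) :
    ∫ ω, frK ℓ lam ω K n ∂(percolation d p) ≤
      (1 - (p : ℝ)) ^ K.card * ∫ ω, nw ℓ lam ω n ∂(percolation d p) := by
  have hes : Integrable (fun ω => ∑ z ∈ box d (n + 1),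
      rq ℓ lam ω (fun x => ∀ D ∈ K, Away (edgeTo z D) x) (n + 1) z) (percolation d p) :=
    integrable_finsetSum _ fun z _ => integrable_rq p _ _ z
  have h1 : ∫ ω, frK ℓ lam ω K n ∂(percolation d p) =
      (1 - (p : ℝ)) ^ K.card * ∫ ω, ∑ z ∈ box d (n + 1),
        rq ℓ lam ω (fun x => ∀ D ∈ K, Away (edgeTo z D) x) (n + 1) z ∂(percolation d p) := by
    unfold frK
    rw [integral_finsetSum _ fun z _ => integrable_rq_prK ℓ lam p _ _ z K,
      integral_finsetSum _ fun z _ => integrable_rq p _ _ z, Finset.mul_sum]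
    refine Finset.sum_congr rfl fun z _ => ?_
    refine integral_freshK p (rq_depOn ℓ lam _ (n + 1) z) K z fun D hD h => ?_
    obtain ⟨x, D', hx, hD'⟩ := mem_tq h
    exact hx D hD D' hD'
  rw [h1]
  have hr : 0 ≤ 1 - (p : ℝ) := by linarith [p.2.2]
  refine mul_le_mul_of_nonneg_left ?_ (pow_nonneg hr _)
  refine integral_mono hes (integrable_nw p n) fun ω => ?_
  change ∑ z ∈ box d (n + 1),
      rq ℓ lam ω (fun x => ∀ D ∈ K, Away (edgeTo z D) x) (n + 1) z ≤ nw ℓ lam ω n
  rw [sum_rq ℓ lam ω (fun z x => ∀ D ∈ K, Away (edgeTo z D) x) (n + 1), nw_eq]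
  refine measureReal_mono fun X hX m hm h => ?_
  obtain ⟨D, hD⟩ := hK
  exact hX m hm D hD D (by rw [h])

end Pool.Agent.P2ec0h
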