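import Pool.Agent.Lib.P2ec0g.Recs

/-!
# Several maximal directions: heights and step probabilities
-/

open MeasureTheory ProbabilityTheory Filter Topology Function
open scoped unitInterval ENNReal

namespace Pool.Agent.P2ec0h

open Pool.Agent.P2ec0f3 Pool.Agent.P2ec0g

variable {d : ℕ} (ℓ : Fin d → ℝ) (lam : ℝ) (ω : Set (Edge d))

/-- Functionals of the path up to time `n`. -/
def PastA {α : Type*} (n : ℕ) (a : (ℕ → Vtx d) → α) : Prop :=
  ∀ X Y : ℕ → Vtx d, (∀ m ≤ n, X m = Y m) → a X = a Y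

/-- The one step formula. -/
lemma integral_stepA {α : Type*} {n : ℕ} {a : (ℕ → Vtx d) → α} (ha : PastA n a)
    (g : Vtx d → α → ℝ)
    {C : ℝ} (hC : ∀ᵐ X ∂(quenched ℓ lam ω), ∀ y ∈ box d (n + 1), |g y (a X)| ≤ C) :
    ∫ X, g (X (n + 1)) (a X) ∂(quenched ℓ lam ω) =
      ∫ X, (g (X n) (a X) + drift ℓ lam ω (fun y => g y (a X)) (X n)) ∂(quenched ℓ lam ω) := by
  classical
  set T := quenched ℓ lam ω with hT
  have h := Kernel.map_frestrictLe_trajMeasure_compProd_eq_map_trajMeasure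
    (X := fun _ : ℕ => Vtx d) (κ := pastKernel ℓ lam ω) (μ₀ := Measure.dirac (0 : Vtx d)) (a := n)
  set ext : ((i : Finset.Iic n) → (fun _ : ℕ => Vtx d) i) → (ℕ → Vtx d) :=
    fun path m => if hm : m ≤ n then path ⟨m, Finset.mem_Iic.2 hm⟩ else 0 with hext
  set b : ((i : Finset.Iic n) → (fun _ : ℕ => Vtx d) i) → α := fun path => a (ext path) with hb
  have hab : ∀ X : ℕ → Vtx d, b (Preorder.frestrictLe (π := fun _ : ℕ => Vtx d) n X) = a X := by
    intro X
    refine ha _ _ fun m hm => ?_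
    simp [hext, hm]
  set G : ((i : Finset.Iic n) → (fun _ : ℕ => Vtx d) i) × Vtx d → ℝ :=
    fun r => g r.2 (b r.1) with hG
  have hGm : Measurable G := measurable_of_countable _
  have hmap : Measurable (fun x : ℕ → Vtx d =>
      (Preorder.frestrictLe (π := fun _ : ℕ => Vtx d) n x, x (n + 1))) := by fun_prop
  have h1 : ∫ X, g (X (n + 1)) (a X) ∂T =
      ∫ r, G r ∂(T.map (fun x => (Preorder.frestrictLe (π := fun _ : ℕ => Vtx d) n x,
        x (n + 1)))) := by
    rw [integral_map hmap.aemeasurable hGm.aestronglyMeasurable]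
    refine integral_congr_ae (ae_of_all _ fun X => ?_)
    simp only [hG, hab]
  have hint : Integrable G (T.map (fun x => (Preorder.frestrictLe (π := fun _ : ℕ => Vtx d) n x,
        x (n + 1)))) := by
    refine (integrable_map_measure hGm.aestronglyMeasurable hmap.aemeasurable).2 ?_
    refine Integrable.of_bound (C := C) ((hGm.comp hmap).aestronglyMeasurable) ?_
    filter_upwards [hC, ae_mem_box ℓ lam ω (n + 1)] with X hX hb1
    simp only [comp, hG, hab, Real.norm_eq_abs]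
    exact hX _ hb1
  rw [h1]
  have h' : T.map (fun x => (Preorder.frestrictLe (π := fun _ : ℕ => Vtx d) n x, x (n + 1))) =
      (T.map (Preorder.frestrictLe (π := fun _ : ℕ => Vtx d) n)) ⊗ₘ (pastKernel ℓ lam ω n) :=
    h.symm
  rw [h'] at hint ⊢
  rw [Measure.integral_compProd hint, integral_map (by fun_prop)
    (measurable_of_countable _).aestronglyMeasurable]
  refine integral_congr_ae (ae_of_all _ fun X => ?_)
  simp only [hG, hab]
  exact integral_stepLaw ℓ lam ω (fun y => g y (a X)) (X n)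

/-- A functional of the path up to time `n` is measurable. -/
lemma PastA.measurable {α : Type*} [MeasurableSpace α] {n : ℕ} {a : (ℕ → Vtx d) → α}
    (ha : PastA n a) : Measurable a := by
  classical
  set ext : ((i : Finset.Iic n) → (fun _ : ℕ => Vtx d) i) → (ℕ → Vtx d) :=
    fun path m => if hm : m ≤ n then path ⟨m, Finset.mem_Iic.2 hm⟩ else 0 with hext
  have h : a = (fun path => a (ext path)) ∘ (Preorder.frestrictLe (π := fun _ : ℕ => Vtx d) n) := by
    funext X
    refine ha _ _ fun m hm => ?_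
    simp [hext, hm]
  rw [h]
  exact (measurable_of_countable _).comp (by fun_prop)

lemma PastA.integrable {n : ℕ} {a : (ℕ → Vtx d) → ℝ} (ha : PastA n a) {C : ℝ}
    (hC : ∀ᵐ X ∂(quenched ℓ lam ω), |a X| ≤ C) : Integrable a (quenched ℓ lam ω) := by
  refine Integrable.of_bound (C := C) ha.measurable.aestronglyMeasurable ?_
  filter_upwards [hC] with X hX
  rw [Real.norm_eq_abs]
  exact hX

variable (J : Finset (Fin d × Bool))

/-- The height with respect to the set `J` of directions. -/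
def hJ (x : Vtx d) : ℤ := ∑ D ∈ J, ht D x

/-- The increments of the height. -/
def dJ (D : Fin d × Bool) : ℤ := ∑ D' ∈ J, dh D' D

lemma hJ_nbr (x : Vtx d) (D : Fin d × Bool) : hJ J (nbr x D) = hJ J x + dJ J D := by
  unfold hJ dJ
  rw [← Finset.sum_add_distrib]
  exact Finset.sum_congr rfl fun D' _ => ht_nbr D' D x

lemma hJ_zero : hJ J (0 : Vtx d) = 0 := by
  unfold hJ
  exact Finset.sum_eq_zero fun D _ => ht_zero D

lemma gain_opp (D : Fin d × Bool) : gain ℓ (D.1, !D.2) = - gain ℓ D := by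
  obtain ⟨j, b⟩ := D
  cases b <;> simp [gain]

/-- The standing hypothesis: `J` is the set of the directions of maximal gain `L`, and the other
gains are at most `L - δ`. -/
structure GapJ (L δ : ℝ) : Prop where
  pos : 0 < δ
  ne : J.Nonempty
  eq : ∀ D ∈ J, gain ℓ D = L
  gap : ∀ D, D ∉ J → gain ℓ D + δ ≤ L
  le : δ ≤ L

variable {ℓ J}

lemma opp_notMem {L δ : ℝ} (hG : GapJ ℓ J L δ) {D : Fin d × Bool} (h : D ∈ J) :
    (D.1, !D.2) ∉ J := by
  intro h'
  have h1 := hG.eq D h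
  have h2 := hG.eq _ h'
  rw [gain_opp, h1] at h2
  linarith [hG.pos, hG.le]

lemma dJ_mem {L δ : ℝ} (hG : GapJ ℓ J L δ) {D : Fin d × Bool} (h : D ∈ J) : dJ J D = 1 := by
  classical
  unfold dJ
  rw [Finset.sum_eq_single D]
  · exact dh_self D
  · intro D' hD' hne
    unfold dh
    rw [if_neg hne.symm, if_neg]
    intro h'
    exact opp_notMem hG hD' (h' ▸ h)
  · intro h'
    exact absurd h h'

lemma dJ_notMem {D : Fin d × Bool} (h : D ∉ J) : dJ J D = 0 ∨ dJ J D = -1 := by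
  classical
  unfold dJ
  by_cases h' : (D.1, !D.2) ∈ J
  · right
    rw [Finset.sum_eq_single (D.1, !D.2)]
    · unfold dh
      rw [if_neg, if_pos]
      · simp
      · intro h1
        rw [← h1] at h'
        exact h h'
    · intro D' hD' hne
      unfold dh
      rw [if_neg, if_neg]
      · intro h1
        apply hne
        rw [h1]
        simp
      · intro h1
        rw [h1] at h
        exact h hD'
    · intro h1
      exact absurd h' h1
  · left
    refine Finset.sum_eq_zero fun D' hD' => ?_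
    unfold dh
    rw [if_neg, if_neg]
    · intro h1
      apply h'
      rw [h1]
      simpa using hD'
    · intro h1
      rw [h1] at h
      exact h hD'

lemma dJ_le_one {L δ : ℝ} (hG : GapJ ℓ J L δ) (D : Fin d × Bool) : dJ J D ≤ 1 := by
  by_cases h : D ∈ J
  · rw [dJ_mem hG h]
  · rcases dJ_notMem h with h1 | h1 <;> omega

lemma neg_one_le_dJ {L δ : ℝ} (hG : GapJ ℓ J L δ) (D : Fin d × Bool) : -1 ≤ dJ J D := by
  by_cases h : D ∈ J
  · rw [dJ_mem hG h]; omega
  · rcases dJ_notMem h with h1 | h1 <;> omega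

lemma abs_dJ_le {L δ : ℝ} (hG : GapJ ℓ J L δ) (D : Fin d × Bool) : |dJ J D| ≤ 1 :=
  abs_le.2 ⟨neg_one_le_dJ hG D, dJ_le_one hG D⟩

lemma gain_le_L {L δ : ℝ} (hG : GapJ ℓ J L δ) (D : Fin d × Bool) : gain ℓ D ≤ L := by
  by_cases h : D ∈ J
  · rw [hG.eq D h]
  · linarith [hG.gap D h, hG.pos]

variable (J) in
/-- All edges from `x` in the directions of `J` are closed. -/
def Blk (ω : Set (Edge d)) (x : Vtx d) : Prop := ∀ D ∈ J, edgeTo x D ∉ ω

variable (ℓ J) in
/-- The probability of a forward step. -/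
noncomputable def pJ (x : Vtx d) : ℝ := ∑ D ∈ J, sp ℓ lam ω x D

variable {ω} {lam} {x : Vtx d}

lemma pJ_nonneg : 0 ≤ pJ ℓ lam ω J x := Finset.sum_nonneg fun _ _ => sp_nonneg ..

lemma pJ_le_one : pJ ℓ lam ω J x ≤ 1 :=
  (Finset.sum_le_sum_of_subset_of_nonneg (Finset.subset_univ J) fun _ _ _ =>
    sp_nonneg ..).trans (sum_sp_le ..)

lemma total_ne_zero' (h : ¬ Blk J ω x) : total ℓ lam ω x ≠ 0 := by
  unfold Blk at h
  push Not at h
  obtain ⟨D, -, hD⟩ := h
  exact total_ne_zero hD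

/-- The other steps have small probability. -/
lemma sum_compl_le {L δ ε : ℝ} (hG : GapJ ℓ J L δ) (hlam : 0 < lam)
    (hε : Real.exp (-(lam * δ)) ≤ ε) (h : ¬ Blk J ω x) :
    ∑ D ∈ Jᶜ, sp ℓ lam ω x D ≤ 2 * d * ε * pJ ℓ lam ω J x := by
  classical
  unfold Blk at h
  push Not at h
  obtain ⟨D₀, hD₀, hopen⟩ := h
  have h1 : ∀ D ∈ Jᶜ, sp ℓ lam ω x D ≤ ε * sp ℓ lam ω x D₀ := by
    intro D hD
    have hD' := Finset.mem_compl.1 hD
    unfold sp
    rw [← mul_div_assoc]
    refine div_le_div_of_nonneg_right ?_ (total_nonneg ..)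
    rw [weight_of_mem ℓ lam hopen, hG.eq D₀ hD₀]
    refine (weight_le ℓ lam ω x D).trans ?_
    have h1 : lam * gain ℓ D ≤ -(lam * δ) + lam * L := by
      have := mul_le_mul_of_nonneg_left (hG.gap D hD') hlam.le
      linarith
    calc Real.exp (lam * gain ℓ D) ≤ Real.exp (-(lam * δ) + lam * L) :=
          Real.exp_le_exp.2 h1
      _ = Real.exp (-(lam * δ)) * Real.exp (lam * L) := Real.exp_add _ _
      _ ≤ _ := mul_le_mul_of_nonneg_right hε (Real.exp_pos _).le
  refine (Finset.sum_le_sum h1).trans ?_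
  rw [Finset.sum_const, nsmul_eq_mul]
  have hε0 : 0 < ε := lt_of_lt_of_le (Real.exp_pos _) hε
  have h3 : ((Jᶜ).card : ℝ) ≤ 2 * d := by
    have h4 : (Jᶜ).card ≤ (Finset.univ : Finset (Fin d × Bool)).card :=
      Finset.card_le_card (Finset.subset_univ _)
    have h5 : (Finset.univ : Finset (Fin d × Bool)).card = d * 2 := by
      simp [Finset.card_univ]
    have : ((Jᶜ).card : ℝ) ≤ ((d * 2 : ℕ) : ℝ) := by
      rw [← h5]; exact_mod_cast h4
    push_cast at this
    linarith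
  have h6 : sp ℓ lam ω x D₀ ≤ pJ ℓ lam ω J x :=
    Finset.single_le_sum (f := fun D => sp ℓ lam ω x D) (fun _ _ => sp_nonneg ..) hD₀
  have h7 : 0 ≤ sp ℓ lam ω x D₀ := sp_nonneg ..
  calc ((Jᶜ).card : ℝ) * (ε * sp ℓ lam ω x D₀) ≤ 2 * d * (ε * sp ℓ lam ω x D₀) :=
        mul_le_mul_of_nonneg_right h3 (mul_nonneg hε0.le h7)
    _ = 2 * d * ε * sp ℓ lam ω x D₀ := by ring
    _ ≤ _ := mul_le_mul_of_nonneg_left h6 (by positivity)

lemma pJ_add (h : total ℓ lam ω x ≠ 0) :
    pJ ℓ lam ω J x + ∑ D ∈ Jᶜ, sp ℓ lam ω x D = 1 := by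
  classical
  unfold pJ
  rw [Finset.sum_add_sum_compl]
  exact sum_sp ℓ lam ω x h

lemma one_sub_pJ_le {L δ ε : ℝ} (hG : GapJ ℓ J L δ) (hlam : 0 < lam)
    (hε : Real.exp (-(lam * δ)) ≤ ε) (h : ¬ Blk J ω x) :
    1 - pJ ℓ lam ω J x ≤ 2 * d * ε := by
  have h1 := sum_compl_le hG hlam hε h
  have h2 := pJ_add (J := J) (total_ne_zero' (ℓ := ℓ) (lam := lam) h)
  have h3 : pJ ℓ lam ω J x ≤ 1 := pJ_le_one
  have hε0 : 0 < ε := lt_of_lt_of_le (Real.exp_pos _) hε
  have h4 : 2 * d * ε * pJ ℓ lam ω J x ≤ 2 * d * ε * 1 :=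
    mul_le_mul_of_nonneg_left h3 (by positivity)
  linarith

/-- The drift of a function of the height. -/
lemma drift_hJ_le {L δ : ℝ} (hG : GapJ ℓ J L δ) {g : ℤ → ℝ} (hg : Antitone g) :
    drift ℓ lam ω (fun y => g (hJ J y)) x ≤
      pJ ℓ lam ω J x * (g (hJ J x + 1) - g (hJ J x)) +
      (∑ D ∈ Jᶜ, sp ℓ lam ω x D) * (g (hJ J x - 1) - g (hJ J x)) := by
  classical
  rw [drift_eq, ← Finset.sum_add_sum_compl J, pJ, Finset.sum_mul, Finset.sum_mul]
  refine add_le_add (Finset.sum_le_sum fun D hD => ?_) (Finset.sum_le_sum fun D hD => ?_)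
  · rw [hJ_nbr, dJ_mem hG hD]
  · refine mul_le_mul_of_nonneg_left ?_ (sp_nonneg ..)
    rw [hJ_nbr]
    have := hg (show hJ J x - 1 ≤ hJ J x + dJ J D by
      have := neg_one_le_dJ hG D
      omega)
    linarith

end Pool.Agent.P2ec0h
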