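import Pool.Agent.Lib.P2ec0h.RecsJ
import Pool.Agent.Lib.P2ec0h.DriftJ
import Pool.Agent.Lib.P2ec0g.Quen

/-!
# The quenched inequalities
-/

open MeasureTheory ProbabilityTheory Filter Topology Function
open scoped unitInterval ENNReal

namespace Pool.Agent.P2ec0h

open Pool.Agent.P2ec0f3 Pool.Agent.P2ec0g

variable {d : ℕ} {ℓ : Fin d → ℝ} {lam : ℝ} (ω : Set (Edge d)) {J : Finset (Fin d × Bool)}

lemma drift_height_le_L {L δ : ℝ} (hG : GapJ ℓ J L δ) (x : Vtx d) :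
    drift ℓ lam ω (height ℓ) x ≤ L := by
  rw [drift_height]
  have h1 : ∑ D, sp ℓ lam ω x D * gain ℓ D ≤ ∑ D, sp ℓ lam ω x D * L :=
    Finset.sum_le_sum fun D _ => mul_le_mul_of_nonneg_left (gain_le_L hG D) (sp_nonneg ..)
  rw [← Finset.sum_mul] at h1
  have h2 := sum_sp_le ℓ lam ω x
  have h3 : 0 ≤ L := hG.pos.le.trans hG.le
  have := mul_le_mul_of_nonneg_right h2 h3
  linarith

lemma drift_height_blocked {L δ : ℝ} (hG : GapJ ℓ J L δ) {x : Vtx d} (h : Blk J ω x) :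
    drift ℓ lam ω (height ℓ) x ≤ L - δ := by
  rw [drift_height]
  have h1 : ∑ D, sp ℓ lam ω x D * gain ℓ D ≤ ∑ D, sp ℓ lam ω x D * (L - δ) := by
    refine Finset.sum_le_sum fun D _ => ?_
    by_cases hD : D ∈ J
    · have h0 : sp ℓ lam ω x D = 0 := by
        unfold sp
        rw [weight_of_notMem ℓ lam (h D hD), zero_div]
      rw [h0]; simp
    · refine mul_le_mul_of_nonneg_left ?_ (sp_nonneg ..)
      have := hG.gap D hD
      linarith
  rw [← Finset.sum_mul] at h1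
  have h2 := sum_sp_le ℓ lam ω x
  have h3 : 0 ≤ L - δ := by linarith [hG.le]
  have := mul_le_mul_of_nonneg_right h2 h3
  linarith

lemma eh_zero : eh ℓ lam 0 ω = 0 := by
  unfold eh
  rw [lawAt_zero, integral_dirac, height_zero]

lemma eh_succ (N : ℕ) : eh ℓ lam (N + 1) ω = eh ℓ lam N ω +
    ∫ x, drift ℓ lam ω (height ℓ) x ∂(lawAt ℓ lam ω N) := by
  unfold eh
  rw [integral_lawAt_succ, integral_lawAt ℓ lam ω N (drift ℓ lam ω (height ℓ))]

lemma integral_indicator_lawAt (n : ℕ) (s : Set (Vtx d)) :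
    ∫ x, s.indicator (fun _ => (1 : ℝ)) x ∂(lawAt ℓ lam ω n) = (lawAt ℓ lam ω n).real s := by
  rw [integral_indicator_const _ MeasurableSet.of_discrete, smul_eq_mul, mul_one]

/-! ### First regime -/

variable (ℓ lam J) in
/-- The probability of an unblocked vertex with some closed edge. -/
noncomputable def uJ (n : ℕ) : ℝ := (lawAt ℓ lam ω n).real {x | ¬ Blk J ω x ∧ ¬ Full ω x}

lemma eh_le_visitsJ {L δ : ℝ} (hG : GapJ ℓ J L δ) (N : ℕ) :
    eh ℓ lam N ω ≤ N * fs ℓ lam +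
      (L - fs ℓ lam) * ∑ n ∈ Finset.range N, uJ ℓ lam ω J n -
      (δ - (L - fs ℓ lam)) * ∑ n ∈ Finset.range N, BJ ℓ lam J ω n := by
  classical
  induction N with
  | zero => simp [eh_zero]
  | succ N ih =>
    set sB : Set (Vtx d) := {x | Blk J ω x} with hsB
    set sU : Set (Vtx d) := {x | ¬ Blk J ω x ∧ ¬ Full ω x} with hsU
    have h2 : ∫ x, drift ℓ lam ω (height ℓ) x ∂(lawAt ℓ lam ω N) ≤
        ∫ x, (fs ℓ lam + ((L - fs ℓ lam) * sU.indicator (fun _ => (1 : ℝ)) x -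
          (δ - (L - fs ℓ lam)) * sB.indicator (fun _ => (1 : ℝ)) x)) ∂(lawAt ℓ lam ω N) := by
      refine integral_mono (integrable_lawAt ..) (integrable_lawAt ..) fun x => ?_
      by_cases hB : Blk J ω x
      · have hb : x ∈ sB := hB
        have hu : x ∉ sU := fun h => h.1 hB
        rw [Set.indicator_of_mem hb, Set.indicator_of_notMem hu]
        have := drift_height_blocked (lam := lam) ω hG hB
        linarith
      · have hb : x ∉ sB := hB
        rw [Set.indicator_of_notMem hb]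
        by_cases hU : Full ω x
        · have hu : x ∉ sU := fun h => h.2 hU
          rw [Set.indicator_of_notMem hu, drift_height_full ℓ lam ω hU]
          simp
        · have hu : x ∈ sU := ⟨hB, hU⟩
          rw [Set.indicator_of_mem hu]
          have := drift_height_le_L (lam := lam) ω hG x
          linarith
    have h3 : ∫ x, (fs ℓ lam + ((L - fs ℓ lam) * sU.indicator (fun _ => (1 : ℝ)) x -
          (δ - (L - fs ℓ lam)) * sB.indicator (fun _ => (1 : ℝ)) x)) ∂(lawAt ℓ lam ω N) =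
        fs ℓ lam + ((L - fs ℓ lam) * uJ ℓ lam ω J N -
          (δ - (L - fs ℓ lam)) * BJ ℓ lam J ω N) := by
      have i1 : ∀ g : Vtx d → ℝ, Integrable g (lawAt ℓ lam ω N) := integrable_lawAt ℓ lam ω N
      rw [integral_add (i1 _) (i1 _), integral_sub (i1 _) (i1 _), integral_const_mul,
        integral_const_mul, integral_indicator_lawAt, integral_indicator_lawAt]
      simp only [integral_const, probReal_univ, smul_eq_mul, one_mul]
      rfl
    rw [h3] at h2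
    rw [eh_succ, Finset.sum_range_succ, Finset.sum_range_succ]
    push_cast
    linarith

lemma uJ_le_TH {L δ : ℝ} (hG : GapJ ℓ J L δ) (n : ℕ) :
    2 / 5 * uJ ℓ lam ω J n ≤
      TH ℓ lam J ω (fun k => if k ≤ 0 then (2 / 5 : ℝ) else 0) n := by
  classical
  unfold uJ TH
  set sU : Set (Vtx d) := {x | ¬ Blk J ω x ∧ ¬ Full ω x} with hsU
  rw [← integral_ind ℓ lam ω n sU, ← integral_const_mul]
  refine integral_mono_ae ((integrable_indJ ℓ lam ω n sU).const_mul _)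
    (integrable_phi ℓ lam J ω n fun k => ?_) ?_
  · split_ifs <;> norm_num
  · filter_upwards [ae_good ℓ lam ω] with X hX
    by_cases hu : X n ∈ sU
    · rw [Set.indicator_of_mem hu]
      have h1 := tauJ_le_al J ω hX.1 hu.2
      have h2 := hJ_le_tauJ J ω (X n)
      unfold phi
      rw [if_neg hu.1]
      beta_reduce
      rw [if_pos (by omega)]
      norm_num
    · rw [Set.indicator_of_notMem hu]
      unfold phi
      beta_reduce
      rw [mul_zero]
      split_ifs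
      · exact le_rfl
      · norm_num
      · exact le_rfl

/-- The quenched inequality of the first regime. -/
lemma eh_succ_leJ {L δ ε : ℝ} (hG : GapJ ℓ J L δ) (hlam : 0 < lam)
    (hε : Real.exp (-(lam * δ)) ≤ ε) (hε2 : 2 * d * ε ≤ 1 / 100)
    (hl0 : 0 ≤ L - fs ℓ lam) (hq : 9 / 4 * (L - fs ℓ lam) ≤ δ) (N : ℕ) :
    eh ℓ lam (N + 1) ω ≤ (N + 1) * fs ℓ lam
      - ∑ n ∈ Finset.range N, (δ - 9 / 4 * (L - fs ℓ lam)) * rK ℓ lam J ω J n
      + ∑ n ∈ Finset.range (N + 1), 15 / 4 * (L - fs ℓ lam) * ∑ D, frK ℓ lam ω {D} n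
      + 15 / 4 * (L - fs ℓ lam) := by
  have h1 := eh_le_visitsJ (lam := lam) ω hG (N + 1)
  have h2 := sum_TH_le (θ := fun k => if k ≤ 0 then (2 / 5 : ℝ) else 0) ω hG hlam hε hε2
    (fun k => by split_ifs <;> norm_num)
    (fun k hk => by rw [if_pos hk])
    (fun k hk => by
      rw [if_neg (by omega)]
      have := lf_nonneg k
      positivity) (N + 1)
  have h2' : 2 / 5 * ∑ n ∈ Finset.range (N + 1), uJ ℓ lam ω J n ≤
      ∑ n ∈ Finset.range (N + 1), TH ℓ lam J ω (fun k => if k ≤ 0 then (2 / 5 : ℝ) else 0) n := by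
    rw [Finset.mul_sum]
    exact Finset.sum_le_sum fun n _ => uJ_le_TH ω hG n
  have h3 : ∑ n ∈ Finset.range (N + 1), CJ ℓ lam J ω n ≤
      ∑ n ∈ Finset.range (N + 1), ∑ D, frK ℓ lam ω {D} n :=
    Finset.sum_le_sum fun n _ => CJ_le ℓ lam ω hG n
  have h4 : ∑ n ∈ Finset.range N, rK ℓ lam J ω J n ≤
      ∑ n ∈ Finset.range (N + 1), BJ ℓ lam J ω n := by
    rw [Finset.sum_range_succ']
    have h5 : ∑ n ∈ Finset.range N, rK ℓ lam J ω J n ≤
        ∑ n ∈ Finset.range N, BJ ℓ lam J ω (n + 1) :=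
      Finset.sum_le_sum fun n _ => rK_le_BJ ℓ lam J ω n
    have h6 := BJ_nonneg ℓ lam J ω 0
    linarith
  rw [← Finset.mul_sum, ← Finset.mul_sum]
  set q := L - fs ℓ lam with hqdef
  set SU := ∑ n ∈ Finset.range (N + 1), uJ ℓ lam ω J n with hSU
  set SB := ∑ n ∈ Finset.range (N + 1), BJ ℓ lam J ω n with hSB
  set SC := ∑ n ∈ Finset.range (N + 1), CJ ℓ lam J ω n with hSC
  have h7 : SU ≤ 15 / 4 + 5 / 4 * SB + 15 / 4 * SC := by linarith
  have h8 := mul_le_mul_of_nonneg_left h7 hl0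
  have h9 := mul_le_mul_of_nonneg_left h3 (mul_nonneg (by norm_num : (0 : ℝ) ≤ 15 / 4) hl0)
  have h10 := mul_le_mul_of_nonneg_left h4 (sub_nonneg.2 hq)
  push_cast at h1 ⊢
  nlinarith

/-! ### Second regime -/

variable (ℓ lam J) in
/-- The loss of the closed edges in the directions of `J`. -/
noncomputable def aJ (L : ℝ) : ℝ :=
  RJ ℓ lam J L / ((J.card + WJ ℓ lam J L) * (J.card - 1 + WJ ℓ lam J L))

variable (ℓ lam J) in
/-- The factor of the closed edges in the other directions. -/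
noncomputable def bJ (L : ℝ) : ℝ := 1 / (J.card + WJ ℓ lam J L)

lemma eh_le_visits2 {L δ : ℝ} (hG : GapJ ℓ J L δ) (hm : 2 ≤ J.card) (N : ℕ) :
    eh ℓ lam N ω ≤ N * fs ℓ lam
      - aJ ℓ lam J L * ∑ D ∈ J, ∑ n ∈ Finset.range N, kK ℓ lam J ω {D} n
      + bJ ℓ lam J L * ∑ D ∈ Jᶜ, rhoJ ℓ lam L D * ∑ n ∈ Finset.range N, kK ℓ lam J ω {D} n
      + RJ ℓ lam J L * ∑ D ∈ J, ∑ D' ∈ Jᶜ, ∑ n ∈ Finset.range N, kK ℓ lam J ω {D, D'} n
      - (δ - (L - fs ℓ lam)) * ∑ n ∈ Finset.range N, BJ ℓ lam J ω n := by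
  classical
  induction N with
  | zero => simp [eh_zero]
  | succ N ih =>
    set sB : Set (Vtx d) := {x | Blk J ω x} with hsB
    set kS : Finset (Fin d × Bool) → Set (Vtx d) := fun K =>
      {x | ¬ Blk J ω x ∧ ∀ D ∈ K, edgeTo x D ∉ ω} with hkS
    have h2 : ∫ x, drift ℓ lam ω (height ℓ) x ∂(lawAt ℓ lam ω N) ≤
        ∫ x, (fs ℓ lam
          - aJ ℓ lam J L * ∑ D ∈ J, (kS {D}).indicator (fun _ => (1 : ℝ)) x
          + bJ ℓ lam J L * ∑ D ∈ Jᶜ, rhoJ ℓ lam L D * (kS {D}).indicator (fun _ => (1 : ℝ)) x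
          + RJ ℓ lam J L * ∑ D ∈ J, ∑ D' ∈ Jᶜ, (kS {D, D'}).indicator (fun _ => (1 : ℝ)) x
          - (δ - (L - fs ℓ lam)) * sB.indicator (fun _ => (1 : ℝ)) x) ∂(lawAt ℓ lam ω N) := by
      refine integral_mono (integrable_lawAt ..) (integrable_lawAt ..) fun x => ?_
      by_cases hB : Blk J ω x
      · have hb : x ∈ sB := hB
        have hk : ∀ K, (kS K).indicator (fun _ => (1 : ℝ)) x = 0 := fun K =>
          Set.indicator_of_notMem (fun h => h.1 hB) _
        simp only [hk]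
        rw [Set.indicator_of_mem hb]
        have := drift_height_blocked (lam := lam) ω hG hB
        simp only [Finset.sum_const_zero, mul_zero]
        linarith
      · have hb : x ∉ sB := hB
        rw [Set.indicator_of_notMem hb]
        have h1 := drift_unblocked (lam := lam) hG hm hB
        have hk1 : ∀ D, (kS {D}).indicator (fun _ => (1 : ℝ)) x = cl (edgeTo x D) ω := by
          intro D
          unfold cl
          by_cases hD : edgeTo x D ∈ ω
          · rw [if_pos hD, Set.indicator_of_notMem]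
            intro h
            exact h.2 D (Finset.mem_singleton_self D) hD
          · rw [if_neg hD, Set.indicator_of_mem]
            refine ⟨hB, fun D' hD' => ?_⟩
            rw [Finset.mem_singleton.1 hD']
            exact hD
        have hk2 : ∀ D D', (kS {D, D'}).indicator (fun _ => (1 : ℝ)) x =
            cl (edgeTo x D) ω * cl (edgeTo x D') ω := by
          intro D D'
          unfold cl
          by_cases hD : edgeTo x D ∈ ω
          · rw [if_pos hD, zero_mul, Set.indicator_of_notMem]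
            intro h
            exact h.2 D (by simp) hD
          · by_cases hD' : edgeTo x D' ∈ ω
            · rw [if_pos hD', mul_zero, Set.indicator_of_notMem]
              intro h
              exact h.2 D' (by simp) hD'
            · rw [if_neg hD, if_neg hD', mul_one, Set.indicator_of_mem]
              refine ⟨hB, fun D'' hD'' => ?_⟩
              rcases Finset.mem_insert.1 hD'' with h | h
              · rw [h]; exact hD
              · rw [Finset.mem_singleton.1 h]; exact hD'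
        simp only [hk1, hk2]
        rw [mul_zero, sub_zero]
        exact h1
    have i1 : ∀ g : Vtx d → ℝ, Integrable g (lawAt ℓ lam ω N) := integrable_lawAt ℓ lam ω N
    have h3 : ∫ x, (fs ℓ lam
          - aJ ℓ lam J L * ∑ D ∈ J, (kS {D}).indicator (fun _ => (1 : ℝ)) x
          + bJ ℓ lam J L * ∑ D ∈ Jᶜ, rhoJ ℓ lam L D * (kS {D}).indicator (fun _ => (1 : ℝ)) x
          + RJ ℓ lam J L * ∑ D ∈ J, ∑ D' ∈ Jᶜ, (kS {D, D'}).indicator (fun _ => (1 : ℝ)) x
          - (δ - (L - fs ℓ lam)) * sB.indicator (fun _ => (1 : ℝ)) x) ∂(lawAt ℓ lam ω N) =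
        fs ℓ lam - aJ ℓ lam J L * ∑ D ∈ J, kK ℓ lam J ω {D} N
          + bJ ℓ lam J L * ∑ D ∈ Jᶜ, rhoJ ℓ lam L D * kK ℓ lam J ω {D} N
          + RJ ℓ lam J L * ∑ D ∈ J, ∑ D' ∈ Jᶜ, kK ℓ lam J ω {D, D'} N
          - (δ - (L - fs ℓ lam)) * BJ ℓ lam J ω N := by
      rw [integral_sub (i1 _) (i1 _), integral_add (i1 _) (i1 _), integral_add (i1 _) (i1 _),
        integral_sub (i1 _) (i1 _), integral_const_mul, integral_const_mul, integral_const_mul,
        integral_const_mul, integral_finsetSum _ fun D _ => i1 _,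
        integral_finsetSum _ fun D _ => i1 _, integral_finsetSum _ fun D _ => i1 _,
        integral_indicator_lawAt]
      have e1 : ∀ K, ∫ x, (kS K).indicator (fun _ => (1 : ℝ)) x ∂(lawAt ℓ lam ω N) =
          kK ℓ lam J ω K N := fun K => integral_indicator_lawAt ω N _
      have e2 : ∀ D ∈ Jᶜ, ∫ x, rhoJ ℓ lam L D * (kS {D}).indicator (fun _ => (1 : ℝ)) x
          ∂(lawAt ℓ lam ω N) = rhoJ ℓ lam L D * kK ℓ lam J ω {D} N := fun D _ => by
        rw [integral_const_mul, e1]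
      have e3 : ∀ D ∈ J, ∫ x, ∑ D' ∈ Jᶜ, (kS {D, D'}).indicator (fun _ => (1 : ℝ)) x
          ∂(lawAt ℓ lam ω N) = ∑ D' ∈ Jᶜ, kK ℓ lam J ω {D, D'} N := fun D _ => by
        rw [integral_finsetSum _ fun D _ => i1 _]
        exact Finset.sum_congr rfl fun D' _ => e1 _
      rw [Finset.sum_congr rfl fun D _ => e1 {D}, Finset.sum_congr rfl e2,
        Finset.sum_congr rfl e3]
      simp only [integral_const, probReal_univ, smul_eq_mul, one_mul]
      rfl
    rw [h3] at h2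
    rw [eh_succ, Finset.sum_range_succ]
    simp only [Finset.sum_range_succ, mul_add, Finset.sum_add_distrib]
    push_cast
    linarith

/-- The quenched inequality of the second regime. -/
lemma eh_succ_le2 {L δ ε : ℝ} (hG : GapJ ℓ J L δ) (hm : 2 ≤ J.card) (hlam : 0 < lam)
    (hε : Real.exp (-(lam * δ)) ≤ ε) (hε2 : 2 * d * ε ≤ 1 / 100) {M : ℝ}
    (hM : bJ ℓ lam J L * RJ ℓ lam J L + RJ ℓ lam J L * (J.card * (Jᶜ).card) ≤ M)
    (hcoef : aJ ℓ lam J L * J.card + 6 * M + (L - fs ℓ lam) ≤ δ) (N : ℕ) :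
    eh ℓ lam (N + 1) ω ≤ (N + 1) * fs ℓ lam
      - ∑ n ∈ Finset.range N, aJ ℓ lam J L * ∑ D ∈ J, rK ℓ lam J ω {D} n
      + ∑ n ∈ Finset.range (N + 1), (bJ ℓ lam J L * ∑ D ∈ Jᶜ, rhoJ ℓ lam L D * frK ℓ lam ω {D} n
        + RJ ℓ lam J L * ∑ D ∈ J, ∑ D' ∈ Jᶜ, frK ℓ lam ω {D, D'} n
        + 57 * d * ε * M * ∑ D, frK ℓ lam ω {D} n)
      + 4 * M := by
  classical
  have hε0 : 0 < ε := lt_of_lt_of_le (Real.exp_pos _) hε
  have hW := WJ_nonneg (ℓ := ℓ) (lam := lam) (J := J) (L := L)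
  have hρ : ∀ D, 0 ≤ rhoJ ℓ lam L D := rhoJ_nonneg hG
  have hR : 0 ≤ RJ ℓ lam J L := (RJ_pos hG).le
  have hm' : (2 : ℝ) ≤ J.card := by exact_mod_cast hm
  have ha : 0 ≤ aJ ℓ lam J L := by
    unfold aJ
    refine div_nonneg hR (mul_nonneg ?_ ?_) <;> linarith
  have hb : 0 ≤ bJ ℓ lam J L := by
    unfold bJ
    refine div_nonneg zero_le_one ?_
    linarith
  have h1 := eh_le_visits2 (lam := lam) ω hG hm (N + 1)
  set SB := ∑ n ∈ Finset.range (N + 1), BJ ℓ lam J ω n with hSB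
  set SZ := ∑ n ∈ Finset.range (N + 1), ZJ ℓ lam J ω n with hSZ
  have hSB0 : 0 ≤ SB := Finset.sum_nonneg fun n _ => BJ_nonneg ℓ lam J ω n
  -- lower bound
  have hlow : ∀ D, ∑ n ∈ Finset.range N, rK ℓ lam J ω {D} n - SB ≤
      ∑ n ∈ Finset.range (N + 1), kK ℓ lam J ω {D} n := by
    intro D
    rw [hSB, Finset.sum_range_succ' (fun n => kK ℓ lam J ω {D} n),
      Finset.sum_range_succ' (fun n => BJ ℓ lam J ω n)]
    have h5 : ∑ n ∈ Finset.range N, rK ℓ lam J ω {D} n ≤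
        ∑ n ∈ Finset.range N, (kK ℓ lam J ω {D} (n + 1) + BJ ℓ lam J ω (n + 1)) :=
      Finset.sum_le_sum fun n _ => rK_le_kK ℓ lam J ω D n
    rw [Finset.sum_add_distrib] at h5
    have h6 := BJ_nonneg ℓ lam J ω 0
    have h7 := kK_nonneg ℓ lam J ω {D} 0
    linarith
  -- upper bound
  have hup : ∀ K, ∑ n ∈ Finset.range (N + 1), kK ℓ lam J ω K n ≤
      ∑ n ∈ Finset.range (N + 1), frK ℓ lam ω K n + (1 + SZ) := by
    intro K
    rw [hSZ, Finset.sum_range_succ' (fun n => kK ℓ lam J ω K n),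
      Finset.sum_range_succ' (fun n => ZJ ℓ lam J ω n),
      Finset.sum_range_succ (fun n => frK ℓ lam ω K n)]
    have h5 : ∑ n ∈ Finset.range N, kK ℓ lam J ω K (n + 1) ≤
        ∑ n ∈ Finset.range N, (frK ℓ lam ω K n + ZJ ℓ lam J ω (n + 1)) :=
      Finset.sum_le_sum fun n _ => kK_le_frK ℓ lam ω hG K n
    rw [Finset.sum_add_distrib] at h5
    have h6 := ZJ_nonneg ℓ lam J ω 0
    have h7 := kK_le_one ℓ lam J ω K 0
    have h8 := frK_nonneg ℓ lam ω K N
    linarith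
  have hZ := sum_ZJ_le ω hG hlam hε hε2 (N + 1)
  have hC : ∑ n ∈ Finset.range (N + 1), CJ ℓ lam J ω n ≤
      ∑ n ∈ Finset.range (N + 1), ∑ D, frK ℓ lam ω {D} n :=
    Finset.sum_le_sum fun n _ => CJ_le ℓ lam ω hG n
  -- the first sum
  have s1 : ∑ n ∈ Finset.range N, aJ ℓ lam J L * ∑ D ∈ J, rK ℓ lam J ω {D} n
      - aJ ℓ lam J L * J.card * SB ≤
      aJ ℓ lam J L * ∑ D ∈ J, ∑ n ∈ Finset.range (N + 1), kK ℓ lam J ω {D} n := by
    have h2 : ∑ D ∈ J, (∑ n ∈ Finset.range N, rK ℓ lam J ω {D} n - SB) ≤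
        ∑ D ∈ J, ∑ n ∈ Finset.range (N + 1), kK ℓ lam J ω {D} n :=
      Finset.sum_le_sum fun D _ => hlow D
    rw [Finset.sum_sub_distrib, Finset.sum_const, nsmul_eq_mul, Finset.sum_comm] at h2
    have h3 := mul_le_mul_of_nonneg_left h2 ha
    rw [← Finset.mul_sum]
    linarith
  -- the second sum
  have s2 : bJ ℓ lam J L * ∑ D ∈ Jᶜ, rhoJ ℓ lam L D *
        ∑ n ∈ Finset.range (N + 1), kK ℓ lam J ω {D} n ≤
      ∑ n ∈ Finset.range (N + 1), bJ ℓ lam J L * ∑ D ∈ Jᶜ, rhoJ ℓ lam L D * frK ℓ lam ω {D} n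
        + bJ ℓ lam J L * RJ ℓ lam J L * (1 + SZ) := by
    have h2 : ∑ D ∈ Jᶜ, rhoJ ℓ lam L D * ∑ n ∈ Finset.range (N + 1), kK ℓ lam J ω {D} n ≤
        ∑ D ∈ Jᶜ, (rhoJ ℓ lam L D * ∑ n ∈ Finset.range (N + 1), frK ℓ lam ω {D} n +
          rhoJ ℓ lam L D * (1 + SZ)) := by
      refine Finset.sum_le_sum fun D _ => ?_
      rw [← mul_add]
      exact mul_le_mul_of_nonneg_left (hup {D}) (hρ D)
    rw [Finset.sum_add_distrib, ← Finset.sum_mul] at h2
    have h3 := mul_le_mul_of_nonneg_left h2 hb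
    have h4 : ∑ n ∈ Finset.range (N + 1), bJ ℓ lam J L *
        ∑ D ∈ Jᶜ, rhoJ ℓ lam L D * frK ℓ lam ω {D} n =
        bJ ℓ lam J L * ∑ D ∈ Jᶜ, rhoJ ℓ lam L D *
          ∑ n ∈ Finset.range (N + 1), frK ℓ lam ω {D} n := by
      rw [← Finset.mul_sum, Finset.sum_comm]
      congr 1
      refine Finset.sum_congr rfl fun D _ => ?_
      rw [Finset.mul_sum]
    rw [h4]
    have h5 : RJ ℓ lam J L = ∑ D ∈ Jᶜ, rhoJ ℓ lam L D := rfl
    rw [h5]
    linarith
  -- the third sum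
  have s3 : RJ ℓ lam J L * ∑ D ∈ J, ∑ D' ∈ Jᶜ,
        ∑ n ∈ Finset.range (N + 1), kK ℓ lam J ω {D, D'} n ≤
      ∑ n ∈ Finset.range (N + 1), RJ ℓ lam J L *
        ∑ D ∈ J, ∑ D' ∈ Jᶜ, frK ℓ lam ω {D, D'} n
        + RJ ℓ lam J L * (J.card * (Jᶜ).card) * (1 + SZ) := by
    have h2 : ∑ D ∈ J, ∑ D' ∈ Jᶜ, ∑ n ∈ Finset.range (N + 1), kK ℓ lam J ω {D, D'} n ≤
        ∑ D ∈ J, ∑ D' ∈ Jᶜ, (∑ n ∈ Finset.range (N + 1), frK ℓ lam ω {D, D'} n + (1 + SZ)) :=
      Finset.sum_le_sum fun D _ => Finset.sum_le_sum fun D' _ => hup {D, D'}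
    simp only [Finset.sum_add_distrib, Finset.sum_const, nsmul_eq_mul] at h2
    have h3 := mul_le_mul_of_nonneg_left h2 hR
    have h4 : ∑ n ∈ Finset.range (N + 1), RJ ℓ lam J L *
        ∑ D ∈ J, ∑ D' ∈ Jᶜ, frK ℓ lam ω {D, D'} n =
        RJ ℓ lam J L * ∑ D ∈ J, ∑ D' ∈ Jᶜ,
          ∑ n ∈ Finset.range (N + 1), frK ℓ lam ω {D, D'} n := by
      rw [← Finset.mul_sum, Finset.sum_comm]
      congr 1
      refine Finset.sum_congr rfl fun D _ => ?_
      rw [Finset.sum_comm]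
    rw [h4]
    linarith
  have hM0 : 0 ≤ M := by
    refine le_trans ?_ hM
    positivity
  set SF := ∑ n ∈ Finset.range (N + 1), ∑ D, frK ℓ lam ω {D} n with hSF
  have hZ2 : 1 + SZ ≤ 4 + 6 * SB + 57 * d * ε * SF := by
    have := mul_le_mul_of_nonneg_left hC (by positivity : 0 ≤ 57 * d * ε)
    linarith
  have hSZ0 : 0 ≤ 1 + SZ := by
    have : 0 ≤ SZ := Finset.sum_nonneg fun n _ => ZJ_nonneg ℓ lam J ω n
    linarith
  have h5 := mul_le_mul_of_nonneg_right hM hSZ0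
  have h6 := mul_le_mul_of_nonneg_left hZ2 hM0
  have h7 := mul_le_mul_of_nonneg_right hcoef hSB0
  rw [Finset.sum_add_distrib, Finset.sum_add_distrib, ← Finset.mul_sum (Finset.range (N + 1))
    (fun n => ∑ D, frK ℓ lam ω {D} n)]
  push_cast at h1 ⊢
  nlinarith

end Pool.Agent.P2ec0h
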