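import Pool.Agent.Lib.P2ec0h.FreshJ

/-!
# Records along a path
-/

open MeasureTheory ProbabilityTheory Filter Topology Function
open scoped unitInterval ENNReal

namespace Pool.Agent.P2ec0h

open Pool.Agent.P2ec0f3 Pool.Agent.P2ec0g

variable {d : ℕ} (ℓ : Fin d → ℝ) (lam : ℝ) (ω : Set (Edge d)) (J : Finset (Fin d × Bool))

/-- The event of a record at time `n + 1`. -/
def recJ (n : ℕ) : Set (ℕ → Vtx d) := {X | ∀ m < n + 1, hJ J (X m) < hJ J (X (n + 1))}

lemma measurableSet_recJ (n : ℕ) : MeasurableSet (recJ (d := d) J n) :=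
  measurableSet_rel (fun z x => hJ J x < hJ J z) (n + 1)

lemma hJ_le_sum {X : ℕ → Vtx d} (h0 : X 0 = 0)
    (hstep : ∀ n, hJ J (X (n + 1)) ≤ hJ J (X n) + 1) (N : ℕ) :
    ∀ m ≤ N, (hJ J (X m) : ℝ) ≤
      ∑ n ∈ Finset.range N, (recJ J n).indicator (fun _ => (1 : ℝ)) X := by
  induction N with
  | zero =>
    intro m hm
    obtain rfl : m = 0 := by omega
    rw [h0, hJ_zero]
    simp
  | succ N ih =>
    intro m hm
    rw [Finset.sum_range_succ]
    have hnn : 0 ≤ (recJ J N).indicator (fun _ => (1 : ℝ)) X :=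
      Set.indicator_nonneg (fun _ _ => zero_le_one) _
    rcases Nat.lt_or_ge m (N + 1) with h | h
    · have := ih m (by omega)
      linarith
    · obtain rfl : m = N + 1 := by omega
      by_cases hr : X ∈ recJ J N
      · rw [Set.indicator_of_mem hr]
        have h1 := ih N le_rfl
        have h2 : (hJ J (X (N + 1)) : ℝ) ≤ hJ J (X N) + 1 := by exact_mod_cast hstep N
        linarith
      · unfold recJ at hr
        simp only [Set.mem_ofPred_eq] at hr
        push Not at hr
        obtain ⟨m', hm', h1⟩ := hr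
        have h2 := ih m' (by omega)
        have h3 : (hJ J (X (N + 1)) : ℝ) ≤ hJ J (X m') := by exact_mod_cast h1
        linarith

lemma integrable_hJ (N : ℕ) :
    Integrable (fun X : ℕ → Vtx d => (hJ J (X N) : ℝ)) (quenched ℓ lam ω) := by
  have h2 := integrable_lawAt ℓ lam ω N (fun x => (hJ J x : ℝ))
  unfold lawAt at h2
  exact (integrable_map_measure (f := fun X : ℕ → Vtx d => X N)
    (g := fun x => (hJ J x : ℝ)) (measurable_of_countable _).aestronglyMeasurable
    (measurable_pi_apply N).aemeasurable).1 h2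

variable {J ℓ}

/-- The expected number of records dominates the expected height. -/
lemma integral_hJ_le {L δ : ℝ} (hG : GapJ ℓ J L δ) (N : ℕ) :
    ∫ x, (hJ J x : ℝ) ∂(lawAt ℓ lam ω N) ≤
    ∑ n ∈ Finset.range N, rnJ ℓ lam J ω n := by
  have h1 : ∫ x, (hJ J x : ℝ) ∂(lawAt ℓ lam ω N) =
      ∫ X, (hJ J (X N) : ℝ) ∂(quenched ℓ lam ω) := by
    unfold lawAt
    rw [integral_map (measurable_pi_apply N).aemeasurable
      (measurable_of_countable _).aestronglyMeasurable]
  have h2 : ∑ n ∈ Finset.range N, rnJ ℓ lam J ω n =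
      ∫ X, ∑ n ∈ Finset.range N, (recJ J n).indicator (fun _ => (1 : ℝ)) X
        ∂(quenched ℓ lam ω) := by
    rw [integral_finsetSum _ fun n _ => (integrable_const _).indicator (measurableSet_recJ J n)]
    refine Finset.sum_congr rfl fun n _ => ?_
    rw [integral_indicator_const _ (measurableSet_recJ J n), smul_eq_mul, mul_one, rnJ_eq]
    rfl
  rw [h1, h2]
  refine integral_mono_ae (integrable_hJ ℓ lam ω J N) (integrable_finsetSum _ fun n _ =>
    (integrable_const _).indicator (measurableSet_recJ J n)) ?_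
  filter_upwards [ae_step ℓ lam ω, ae_start ℓ lam ω] with X hX h0
  have h3 : ∀ n, hJ J (X (n + 1)) ≤ hJ J (X n) + 1 := by
    intro n
    rcases hX n with h | ⟨D, -, h⟩
    · rw [h]; omega
    · rw [h, hJ_nbr]
      have := dJ_le_one hG D
      omega
  exact hJ_le_sum J h0 h3 N N le_rfl

/-- The drift of the height `hJ` is large when the drift of `x · ℓ` is large. -/
lemma drift_hJ_ge {L δ : ℝ} (hG : GapJ ℓ J L δ) (x : Vtx d) :
    1 - 2 / δ * L ≤
      drift ℓ lam ω (fun y => (hJ J y : ℝ) - 2 / δ * height ℓ y) x := by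
  have hδ := hG.pos
  have hL : 0 < L := lt_of_lt_of_le hδ hG.le
  have hA : 2 ≤ 2 / δ * L := by
    rw [div_mul_eq_mul_div, le_div_iff₀ hδ]
    linarith [hG.le]
  by_cases h : total ℓ lam ω x = 0
  · have : drift ℓ lam ω (fun y => (hJ J y : ℝ) - 2 / δ * height ℓ y) x = 0 := by
      unfold drift
      simp [h]
    rw [this]
    linarith
  · rw [drift_eq]
    have h1 : ∑ D, sp ℓ lam ω x D * (1 - 2 / δ * L) ≤
        ∑ D, sp ℓ lam ω x D * (((hJ J (nbr x D) : ℝ) - 2 / δ * height ℓ (nbr x D)) -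
          ((hJ J x : ℝ) - 2 / δ * height ℓ x)) := by
      refine Finset.sum_le_sum fun D _ => mul_le_mul_of_nonneg_left ?_ (sp_nonneg ..)
      have e1 : ((hJ J (nbr x D) : ℝ) - 2 / δ * height ℓ (nbr x D)) -
          ((hJ J x : ℝ) - 2 / δ * height ℓ x) = (dJ J D : ℝ) - 2 / δ * gain ℓ D := by
        rw [hJ_nbr, ← height_nbr ℓ x D]
        push_cast
        ring
      rw [e1]
      by_cases hD : D ∈ J
      · rw [dJ_mem hG hD, hG.eq D hD]
        norm_num
      · have h2 := hG.gap D hD
        have h3 : 2 / δ * (gain ℓ D + δ) ≤ 2 / δ * L :=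
          mul_le_mul_of_nonneg_left h2 (by positivity)
        have h4 : 2 / δ * (gain ℓ D + δ) = 2 / δ * gain ℓ D + 2 := by
          field_simp
        have h5 : (-1 : ℝ) ≤ dJ J D := by
          exact_mod_cast neg_one_le_dJ hG D
        linarith
    rw [← Finset.sum_mul, sum_sp ℓ lam ω x h, one_mul] at h1
    exact h1

/-- The expected height `hJ` is large when the expected height is large. -/
lemma integral_hJ_ge {L δ : ℝ} (hG : GapJ ℓ J L δ) (N : ℕ) :
    N * (1 - 2 / δ * L) + 2 / δ * eh ℓ lam N ω ≤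
      ∫ x, (hJ J x : ℝ) ∂(lawAt ℓ lam ω N) := by
  have h1 : N * (1 - 2 / δ * L) ≤
      ∫ x, ((hJ J x : ℝ) - 2 / δ * height ℓ x) ∂(lawAt ℓ lam ω N) := by
    induction N with
    | zero =>
      rw [lawAt_zero, integral_dirac, height_zero, hJ_zero]
      simp
    | succ N ih =>
      rw [integral_lawAt_succ, ← integral_lawAt ℓ lam ω N
        (drift ℓ lam ω (fun x => (hJ J x : ℝ) - 2 / δ * height ℓ x))]
      have h2 : ∫ _x, (1 - 2 / δ * L) ∂(lawAt ℓ lam ω N) ≤
          ∫ x, drift ℓ lam ω (fun x => (hJ J x : ℝ) - 2 / δ * height ℓ x) x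
            ∂(lawAt ℓ lam ω N) :=
        integral_mono (integrable_const _) (integrable_lawAt ..) fun x =>
          drift_hJ_ge lam ω hG x
      simp only [integral_const, probReal_univ, smul_eq_mul, one_mul] at h2
      push_cast
      linarith
  rw [integral_sub (integrable_lawAt ..) (integrable_lawAt ..), integral_const_mul] at h1
  unfold eh
  linarith

/-- The records dominate the expected height. -/
lemma sum_rnJ_ge {L δ : ℝ} (hG : GapJ ℓ J L δ) (N : ℕ) :
    N * (1 - 2 / δ * L) + 2 / δ * eh ℓ lam N ω ≤ ∑ n ∈ Finset.range N, rnJ ℓ lam J ω n :=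
  (integral_hJ_ge lam ω hG N).trans (integral_hJ_le lam ω hG N)

end Pool.Agent.P2ec0h
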